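import Pool.Agent.Helper76.FU.Final
import Pool.Agent.Helper31.SW.LegK
import Pool.Agent.Helper4.SW.Good

/-!
S-world: class (i): leg child of odd size (even entry), at most one leg of odd size at `w`.
-/

set_option autoImplicit false

namespace Pool.Agent.Helper76.FU

open Pool.Agent.Helper4.SW Pool.Agent.Helper31.SW

variable {q : ℕ} {w : Fin q → ℝ} {y : ℝ}

/-- even entry `c` at `g`, an odd entry in `J` and no leaf -/
theorem leg_FU (h : Hyp w y) {c : ℕ} (hc : Even c) {J : List ℕ} (h0 : 0 ∉ J)
    (hJ2 : 2 ≤ J.length) {a : ℕ} (haJ : a ∈ J) (ha : Odd a) :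
    Imp w y (.cons (R J) (R [c])) := by
  have p1 := List.perm_cons_erase haJ
  have h1 : (J.erase a).length = J.length - 1 := List.length_erase_of_mem haJ
  obtain ⟨b, J', hb⟩ : ∃ b J', J.erase a = b :: J' := by
    cases h2 : J.erase a with
    | nil => rw [h2] at h1; simp only [List.length_nil] at h1; omega
    | cons b J' => exact ⟨b, J', rfl⟩
  have hbE : b ∈ J.erase a := by rw [hb]; simp
  have hbJ : b ∈ J := List.mem_of_mem_erase hbE
  have hb0 : b ≠ 0 := fun e => h0 (e ▸ hbJ)
  rw [hb] at p1
  exact Imp_perm p1.symm _ (fus_imp h ha (by omega) hc J')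

/-- class (i), in the form needed in the assembly -/
theorem class_i (h : Hyp w y) (c : ℕ) (J : List ℕ) (hc : Even c) (_ : 2 ≤ c)
    (hJ : 3 ≤ J.length) (h0 : 0 ∉ J) (h1 : J.countP (fun j => decide (Even j)) ≤ 1) :
    Good w y (.cons (R J) (R [c])) := by
  obtain ⟨a, haJ, ha⟩ : ∃ a ∈ J, Odd a := by
    by_contra hno
    push Not at hno
    have h2 : J.countP (fun j => decide (Even j)) = J.length := by
      rw [List.countP_eq_length]
      intro j hj
      rw [decide_eq_true_eq]
      exact Nat.not_odd_iff_even.1 (hno j hj)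
    omega
  exact (leg_FU h hc h0 (by omega) haJ ha).good

end Pool.Agent.Helper76.FU
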