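import Pool.Agent.Helper76.FU.Real

/-!
The real inequality for the pair condition, in terms of the laws.
-/

set_option autoImplicit false

namespace Pool.Agent.Helper76.FU

section

variable {y z m σ x l Ta Tb Tc τa τc : ℝ}

/-- combination step -/
theorem comb {vi A W W' Q P Z : ℝ} (hvi : 0 ≤ vi) (hτc : 0 ≤ τc) (hTa : 0 < Ta) (hTc : 0 < Tc)
    (hl : 0 < l) (hP : 0 < P) (hZ : 0 < Z) (hTb : P ≤ Tb * l) (hA0 : 0 ≤ A) (hW0 : 0 ≤ W)
    (hWW : W' ≤ W * Ta)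
    (hAQ : vi * (τc / Tc) * (A + W) * l ≤ P * Z * Q) :
    vi * τc * (A * Ta + W') ≤ Z * Tb * (Ta * Tc * Q) := by
  have hG : 0 ≤ τc / Tc := div_nonneg hτc hTc.le
  have hQ : 0 ≤ Q := by
    have h1 : 0 ≤ P * Z * Q := le_trans
      (mul_nonneg (mul_nonneg (mul_nonneg hvi hG) (add_nonneg hA0 hW0)) hl.le) hAQ
    exact nonneg_of_mul_nonneg_right h1 (mul_pos hP hZ)
  have e1 : τc = τc / Tc * Tc := by rw [div_mul_cancel₀ _ hTc.ne']
  have h2 : vi * τc * (A * Ta + W') ≤ vi * τc * ((A + W) * Ta) := by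
    refine mul_le_mul_of_nonneg_left ?_ (mul_nonneg hvi hτc)
    rw [add_mul]
    linarith
  refine h2.trans ?_
  have h3 : vi * (τc / Tc) * (A + W) ≤ Tb * (Z * Q) := by
    have h4 : vi * (τc / Tc) * (A + W) * l ≤ Tb * (Z * Q) * l := by
      refine hAQ.trans ?_
      have := mul_le_mul_of_nonneg_right hTb (mul_nonneg hZ.le hQ)
      linarith
    exact le_of_mul_le_mul_right h4 hl
  have h5 := mul_le_mul_of_nonneg_right h3 (mul_pos hTa hTc).le
  calc vi * τc * ((A + W) * Ta) = vi * (τc / Tc) * (A + W) * (Ta * Tc) := by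
        rw [e1]; field_simp
    _ ≤ Tb * (Z * Q) * (Ta * Tc) := h5
    _ = _ := by ring

theorem E3A (hy : 0 < y) (hz : y < z) (hm : z ≤ m) (hs : z + m ≤ σ) (hx : σ + y ≤ x)
    (h1 : x + σ = 1) (hl0 : x * σ ≤ l) (hl : l ≤ σ * (1 + x) + y - z ^ 2 - m ^ 2)
    (hTa0 : x * σ ≤ Ta * l) (hTb : x * σ ≤ Tb * l) (hTc : 0 < Tc)
    (hτc : 0 ≤ τc) (hGH : τc * Ta ≤ τa * Tc) (hH : τa * (x * σ) ≤ z * (1 - z) * Ta) :
    (z - y) / z * τc * ((1 - z) * (Ta - τa) + (σ - z) * ((1 - Ta) * (1 - z / m) / 2)) ≤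
      (1 - z) * Tb * (((x - y) / x) ^ 2 * (Ta * Tc)) ∧
    (z - y) / z * τc * ((1 - z) * (Ta - τa) + (σ - z) * ((1 - Ta) * (1 - z / m) / 2)) ≤
      (1 - z) * Tb * (((x - y) / x) ^ 2 * (Ta * Tc) + z / x * ((x - y) / x) * (Ta * Tc) -
        (z - y) / z * (τa * τc)) := by
  have z0 : 0 < z := hy.trans hz
  have m0 : 0 < m := z0.trans_le hm
  have s0 : 0 < σ := by linarith
  have x0 : 0 < x := by linarith
  have P0 : 0 < x * σ := mul_pos x0 s0
  have l0 : 0 < l := P0.trans_le hl0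
  have z1 : 0 < 1 - z := by linarith
  have Ta0 : 0 < Ta := by
    by_contra hc
    have : Ta * l ≤ 0 := mul_nonpos_of_nonpos_of_nonneg (not_lt.1 hc) l0.le
    linarith
  have hvi : 0 ≤ (z - y) / z := div_nonneg (by linarith) z0.le
  have hG0 : 0 ≤ τc / Tc := div_nonneg hτc hTc.le
  have hGH' : τc / Tc ≤ τa / Ta := by
    rw [div_le_div_iff₀ hTc Ta0]; exact hGH
  have hH' : τa / Ta * (x * σ) ≤ z * (1 - z) := by
    rw [div_mul_eq_mul_div, div_le_iff₀ Ta0]; exact hH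
  have hH1 : τa / Ta ≤ 1 := by
    have h2 : z * (1 - z) ≤ x * σ := by
      have : 0 ≤ (σ - z) * (1 - z - σ) := mul_nonneg (by linarith) (by linarith)
      nlinarith
    have h3 : τa / Ta * (x * σ) ≤ 1 * (x * σ) := by rw [one_mul]; exact hH'.trans h2
    exact le_of_mul_le_mul_right h3 P0
  have hzm : 0 ≤ 1 - z / m := by
    rw [sub_nonneg, div_le_one m0]; exact hm
  have hW0 : 0 ≤ (σ - z) * ((l - x * σ) / (x * σ)) * (1 - z / m) / 2 :=
    div_nonneg (mul_nonneg (mul_nonneg (by linarith) (div_nonneg (by linarith) P0.le)) hzm)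
      zero_le_two
  have hWW : (σ - z) * ((1 - Ta) * (1 - z / m) / 2) ≤
      (σ - z) * ((l - x * σ) / (x * σ)) * (1 - z / m) / 2 * Ta := by
    have h2 : 1 - Ta ≤ (l - x * σ) / (x * σ) * Ta := by
      rw [div_mul_eq_mul_div, le_div_iff₀ P0]
      linarith
    have h3 := mul_le_mul_of_nonneg_left h2 (mul_nonneg (show 0 ≤ σ - z by linarith) hzm)
    linarith
  have hA0 : 0 ≤ (1 - z) * (1 - τa / Ta) := mul_nonneg z1.le (by linarith)
  have eA : (1 - z) * (1 - τa / Ta) * Ta = (1 - z) * (Ta - τa) := by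
    field_simp
  have r1 := comb hvi hτc Ta0 hTc l0 P0 z1 hTb hA0 hW0 hWW
    (A1 hy hz hm hs hx h1 hl0 hl hG0 hGH' hH')
  have r2 := comb hvi hτc Ta0 hTc l0 P0 z1 hTb hA0 hW0 hWW
    (A2 hy hz hm hs hx h1 hl0 hl hG0 hGH' hH')
  rw [eA] at r1 r2
  refine ⟨r1.trans (le_of_eq (by ring)), r2.trans (le_of_eq ?_)⟩
  have e2 : Ta * Tc * (((x - y) / x) ^ 2 + z / x * ((x - y) / x) -
      (z - y) / z * (τc / Tc) * (τa / Ta)) =
      ((x - y) / x) ^ 2 * (Ta * Tc) + z / x * ((x - y) / x) * (Ta * Tc) -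
        (z - y) / z * (τa * τc) := by
    have : Ta * Tc * ((z - y) / z * (τc / Tc) * (τa / Ta)) = (z - y) / z * (τa * τc) := by
      field_simp
    rw [mul_sub, this]
    ring
  rw [e2]

theorem E3B (hy : 0 < y) (hz : y < z) (hs : z ≤ σ) (hx : σ + y ≤ x)
    (h1 : x + σ = 1) (hl0 : 2 * (x * σ) ≤ l) (hl : l ≤ σ * (1 + x) + y - z ^ 2)
    (hTa0 : x * σ ≤ Ta * l) (hTb : x * σ ≤ Tb * l) (hTc : 0 < Tc)
    (hτc : 0 ≤ τc) (hGH : τc * Ta ≤ τa * Tc) (hH : τa * (x * σ) ≤ z * (1 - z) * Ta) :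
    (z - y) / z * τc * ((1 - z) * (Ta - τa)) ≤
      (1 - z) * Tb * (((x - y) / x) ^ 2 * (Ta * Tc)) ∧
    (z - y) / z * τc * ((1 - z) * (Ta - τa)) ≤
      (1 - z) * Tb * (((x - y) / x) ^ 2 * (Ta * Tc) + z / x * ((x - y) / x) * (Ta * Tc) -
        (z - y) / z * (τa * τc)) := by
  have z0 : 0 < z := hy.trans hz
  have s0 : 0 < σ := by linarith
  have x0 : 0 < x := by linarith
  have P0 : 0 < x * σ := mul_pos x0 s0
  have l0 : 0 < l := by linarith
  have z1 : 0 < 1 - z := by linarith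
  have Ta0 : 0 < Ta := by
    by_contra hc
    have : Ta * l ≤ 0 := mul_nonpos_of_nonpos_of_nonneg (not_lt.1 hc) l0.le
    linarith
  have hvi : 0 ≤ (z - y) / z := div_nonneg (by linarith) z0.le
  have hG0 : 0 ≤ τc / Tc := div_nonneg hτc hTc.le
  have hGH' : τc / Tc ≤ τa / Ta := by
    rw [div_le_div_iff₀ hTc Ta0]; exact hGH
  have hH' : τa / Ta * (x * σ) ≤ z * (1 - z) := by
    rw [div_mul_eq_mul_div, div_le_iff₀ Ta0]; exact hH
  have hH1 : τa / Ta ≤ 1 := by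
    have h2 : z * (1 - z) ≤ x * σ := by
      have : 0 ≤ (σ - z) * (1 - z - σ) := mul_nonneg (by linarith) (by linarith)
      nlinarith
    have h3 : τa / Ta * (x * σ) ≤ 1 * (x * σ) := by rw [one_mul]; exact hH'.trans h2
    exact le_of_mul_le_mul_right h3 P0
  have hA0 : 0 ≤ (1 - z) * (1 - τa / Ta) := mul_nonneg z1.le (by linarith)
  have eA : (1 - z) * (1 - τa / Ta) * Ta = (1 - z) * (Ta - τa) := by
    field_simp
  have b1 := B1 hy hz hs hx h1 hl0 hl hG0 hGH'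
  have b2 := B2 hy hz hs hx h1 hl0 hl hG0 hGH' hH'
  rw [← add_zero ((1 - z) * (1 - τa / Ta))] at b1 b2
  have r1 := comb (W := 0) (W' := 0) hvi hτc Ta0 hTc l0 P0 z1 hTb hA0 le_rfl (by simp) b1
  have r2 := comb (W := 0) (W' := 0) hvi hτc Ta0 hTc l0 P0 z1 hTb hA0 le_rfl (by simp) b2
  rw [eA, add_zero] at r1 r2
  refine ⟨r1.trans (le_of_eq (by ring)), r2.trans (le_of_eq ?_)⟩
  have e2 : Ta * Tc * (((x - y) / x) ^ 2 + z / x * ((x - y) / x) -
      (z - y) / z * (τc / Tc) * (τa / Ta)) =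
      ((x - y) / x) ^ 2 * (Ta * Tc) + z / x * ((x - y) / x) * (Ta * Tc) -
        (z - y) / z * (τa * τc) := by
    have : Ta * Tc * ((z - y) / z * (τc / Tc) * (τa / Ta)) = (z - y) / z * (τa * τc) := by
      field_simp
    rw [mul_sub, this]
    ring
  rw [e2]

end

end Pool.Agent.Helper76.FU
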