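import Pool.Agent.Helper76.FU.Star
import Pool.Agent.Helper76.FU.Real2

/-!
S-world: the condition on the pairs.
-/

set_option autoImplicit false

namespace Pool.Agent.Helper76.FU

open Pool.Agent.Helper4.SW Pool.Agent.Helper31.SW
open Finset

variable {q : ℕ} (w : Fin q → ℝ) (y : ℝ)

/-- `D` -/
noncomputable def DD (n : ℕ) (i : Fin q) : ℝ := (w i - y) * ch w y n i

/-- `U`, `theta` -/
noncomputable def UU (a c : ℕ) (i : Fin q) : ℝ := (w i - y) * ch w y a i * ch w y c i

variable {w y}

theorem DD_nn (h : Hyp w y) (n : ℕ) (i : Fin q) : 0 ≤ DD w y n i :=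
  mul_nonneg (sub_pos.2 (h.lt i)).le (ch_nn h n i)

theorem UU_nn (h : Hyp w y) (a c : ℕ) (i : Fin q) : 0 ≤ UU w y a c i :=
  mul_nonneg (mul_nonneg (sub_pos.2 (h.lt i)).le (ch_nn h a i)) (ch_nn h c i)

theorem DD_mono (h : Hyp w y) (n : ℕ) {i j : Fin q} (hij : w i ≤ w j) :
    DD w y n i ≤ DD w y n j := (Cone.ch h.nn h.hy.le n).sub_mono h.hy.le i j hij

theorem l_one (h : Hyp w y) : l w y 1 = 1 := by rw [l_succ, psi_zero, L_def, hat_one, E_one h]

theorem l_two (h : Hyp w y) : l w y 2 = 1 + y - ∑ i, w i ^ 2 := by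
  have h1 := l_succ' w y 1
  rw [ch_one, E_one h] at h1
  have h2 : E w (ch w y (1 + 1)) = 1 - ∑ i, w i ^ 2 := by
    have e : ∀ i, w i * ch w y (1 + 1) i = w i - w i ^ 2 := fun i => by
      rw [ch_succ, l_one h, ch_one]; ring
    rw [E, sum_congr rfl fun i _ => e i, sum_sub_distrib, h.one]
  rw [h2] at h1
  rw [show (2 : ℕ) = 1 + 1 from rfl, h1]
  ring

theorem ch_two (h : Hyp w y) (i : Fin q) : ch w y 2 i = 1 - w i := by
  rw [show (2 : ℕ) = 1 + 1 from rfl, ch_succ, l_one h, ch_one]; ring

/-- `ch (a+1) = l_a (1 - tau_a)` -/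
theorem ch_succ_tau (h : Hyp w y) (a : ℕ) (i : Fin q) :
    ch w y (a + 1) i = l w y a * (1 - tau w y a i) := by
  have := tau_mul h a i
  rw [ch_succ, mul_sub, mul_comm (l w y a) (tau w y a i), this, N]
  ring

theorem w_ch (h : Hyp w y) (a : ℕ) (i : Fin q) : w i * ch w y a i = tau w y a i * l w y a :=
  (tau_mul h a i).symm

/-- two non-top colours -/
theorem claim1 (h : Hyp w y) {t : Fin q} (ht : Top w t) (a c : ℕ) {i k : Fin q} (hk : k ≠ t)
    (hik : w i < w k) :
    UU w y (a + 1) (c + 1) i * DD w y (a + (c + 1)) k -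
      UU w y (a + 1) (c + 1) k * DD w y (a + (c + 1)) i ≤
    DD w y (a + (c + 1)) k * ((w i - y) * (ch w y (c + 1) i * l w y a)) *
      ((tau w y a t - tau w y a i) + (1 - tau w y a t) * (1 - w i / w k) / 2) := by
  have hy := h.hy
  have vk := sub_pos.2 (h.lt k)
  have vi := sub_pos.2 (h.lt i)
  have wk := h.pos k
  have wi := h.pos i
  set n := a + (c + 1) with hn
  have hN := ch_anti h n hik.le
  have nk := ch_nn h n k
  have la := l_pos h a
  have ci := ch_nn h (c + 1) i
  have ck := ch_nn h (c + 1) k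
  have hmid := R_mid h c hk (ht k) hik
  have hc : (w k + w i) * ch w y (c + 1) i ≤ 2 * w k * ch w y (c + 1) k := by
    have h1 : (w k + w i) * (w i * ch w y (c + 1) i) ≤ 2 * w i * (w k * ch w y (c + 1) k) := by
      rw [w_ch h, w_ch h]
      have := mul_le_mul_of_nonneg_right hmid (l_pos h (c + 1)).le
      linarith
    have h2 : w i * ((w k + w i) * ch w y (c + 1) i) ≤ w i * (2 * w k * ch w y (c + 1) k) := by
      linarith
    exact le_of_mul_le_mul_left h2 wi
  have hTt : tau w y a k ≤ tau w y a t := tau_mono h a (ht k)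
  have hT1 := tau_le_one h a t
  have ek := ch_succ_tau h a k
  have ei := ch_succ_tau h a i
  have hck : (1 - tau w y a t) * ((1 + w i / w k) / 2) * (l w y a * ch w y (c + 1) i) ≤
      ch w y (a + 1) k * ch w y (c + 1) k := by
    have h1 : (1 + w i / w k) / 2 * ch w y (c + 1) i ≤ ch w y (c + 1) k := by
      have h2 : (1 + w i / w k) / 2 * ch w y (c + 1) i =
          (w k + w i) * ch w y (c + 1) i / (2 * w k) := by
        field_simp
      rw [h2, div_le_iff₀ (by positivity)]
      linarith
    have h3 : l w y a * (1 - tau w y a t) ≤ ch w y (a + 1) k := by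
      rw [ek]
      exact mul_le_mul_of_nonneg_left (by linarith) la.le
    have h4 : 0 ≤ (1 + w i / w k) / 2 * ch w y (c + 1) i := by positivity
    have := mul_le_mul h3 h1 h4 (ch_nn h (a + 1) k)
    linarith
  have h5 : ch w y (a + 1) i * ch w y (c + 1) i - ch w y (a + 1) k * ch w y (c + 1) k ≤
      ch w y (c + 1) i * l w y a *
      ((tau w y a t - tau w y a i) + (1 - tau w y a t) * (1 - w i / w k) / 2) := by
    rw [ei]
    linarith
  have h6 : ch w y (a + 1) k * ch w y (c + 1) k * ch w y n k ≤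
      ch w y (a + 1) k * ch w y (c + 1) k * ch w y n i :=
    mul_le_mul_of_nonneg_left hN (mul_nonneg (ch_nn h _ _) ck)
  have h7 := mul_le_mul_of_nonneg_right h5 nk
  have h8 : ch w y (a + 1) i * ch w y (c + 1) i * ch w y n k -
      ch w y (a + 1) k * ch w y (c + 1) k * ch w y n i ≤
      ch w y (c + 1) i * l w y a *
      ((tau w y a t - tau w y a i) + (1 - tau w y a t) * (1 - w i / w k) / 2) * ch w y n k := by
    linarith
  have h9 := mul_le_mul_of_nonneg_left h8 (mul_nonneg vi.le vk.le)
  simp only [UU, DD]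
  linarith

/-- the top colour -/
theorem claim2 (h : Hyp w y) {t : Fin q} (ht : Top w t) (a : ℕ) {c : ℕ} (hc : Odd c)
    (i : Fin q) :
    UU w y (a + 1) c i * DD w y (a + c) t - UU w y (a + 1) c t * DD w y (a + c) i ≤
    DD w y (a + c) t * ((w i - y) * (ch w y c i * l w y a)) *
      (tau w y a t - tau w y a i) := by
  have hy := h.hy
  have vt := sub_pos.2 (h.lt t)
  have vi := sub_pos.2 (h.lt i)
  have wt := h.pos t
  have wi := h.pos i
  have hR := R_odd h ht hc a i
  rw [add_comm c a] at hR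
  have h1 : ch w y c i * ch w y (a + c) t ≤ ch w y c t * ch w y (a + c) i := by
    have h2 := mul_le_mul_of_nonneg_right hR (mul_nonneg (l_pos h c).le (l_pos h (a + c)).le)
    have e1 : tau w y c i * tau w y (a + c) t * (l w y c * l w y (a + c)) =
        (w i * ch w y c i) * (w t * ch w y (a + c) t) := by
      rw [w_ch h, w_ch h]; ring
    have e2 : tau w y c t * tau w y (a + c) i * (l w y c * l w y (a + c)) =
        (w t * ch w y c t) * (w i * ch w y (a + c) i) := by
      rw [w_ch h, w_ch h]; ring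
    rw [e1, e2] at h2
    have h3 : w i * w t * (ch w y c i * ch w y (a + c) t) ≤
        w i * w t * (ch w y c t * ch w y (a + c) i) := by linarith
    exact le_of_mul_le_mul_left h3 (mul_pos wi wt)
  have h2 := mul_le_mul_of_nonneg_left h1 (ch_nn h (a + 1) t)
  have ei := ch_succ_tau h a i
  have et := ch_succ_tau h a t
  have h3 : ch w y (a + 1) i * ch w y c i * ch w y (a + c) t -
      ch w y (a + 1) t * ch w y c t * ch w y (a + c) i ≤
      ch w y c i * l w y a * (tau w y a t - tau w y a i) * ch w y (a + c) t := by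
    have h4 : (ch w y (a + 1) i - ch w y (a + 1) t) * (ch w y c i * ch w y (a + c) t) =
        ch w y c i * l w y a * (tau w y a t - tau w y a i) * ch w y (a + c) t := by
      rw [ei, et]; ring
    linarith
  have h4 := mul_le_mul_of_nonneg_left h3 (mul_nonneg vi.le vt.le)
  simp only [UU, DD]
  linarith

end Pool.Agent.Helper76.FU
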