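import Pool.Agent.Helper76.FU.Cond

/-!
S-world: the condition on the pairs, continued.
-/

set_option autoImplicit false

namespace Pool.Agent.Helper76.FU

open Pool.Agent.Helper4.SW Pool.Agent.Helper31.SW
open Finset

variable {q : ℕ} (w : Fin q → ℝ) (y : ℝ)

/-- divided difference of `DD` -/
noncomputable def ep (b : ℕ) (t i : Fin q) : ℝ := (DD w y b t - DD w y b i) / (w t - w i)

/-- `Theta` -/
noncomputable def Th (a b c : ℕ) (t i : Fin q) : ℝ :=
  w t * (UU w y a c t * (DD w y b t + w i * ep w y b t i) - w i * ep w y b t i * UU w y a c i)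

variable {w y}

theorem ep_bounds (h : Hyp w y) {t : Fin q} (ht : Top w t) (b : ℕ) {i : Fin q} (hi : i ≠ t) :
    0 ≤ ep w y b t i ∧ ep w y b t i ≤ ch w y b t := by
  have hit := lt_top h ht hi
  have h0 : 0 < w t - w i := sub_pos.2 hit
  constructor
  · exact div_nonneg (sub_nonneg.2 (DD_mono h b hit.le)) h0.le
  · rw [ep, div_le_iff₀ h0]
    have h1 := mul_le_mul_of_nonneg_left (ch_anti h b hit.le) (sub_pos.2 (h.lt i)).le
    simp only [DD]
    linarith

theorem Th_ge (h : Hyp w y) {t : Fin q} (ht : Top w t) (a b c : ℕ) {i : Fin q} (hi : i ≠ t)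
    {R : ℝ}
    (h1 : (w i - y) / w i * tau w y c i * ((1 - w i) * (tau w y a t - tau w y a i) + R) ≤
      (1 - w i) * tau w y b t * (((w t - y) / w t) ^ 2 * (tau w y a t * tau w y c t)))
    (h2 : (w i - y) / w i * tau w y c i * ((1 - w i) * (tau w y a t - tau w y a i) + R) ≤
      (1 - w i) * tau w y b t * (((w t - y) / w t) ^ 2 * (tau w y a t * tau w y c t) +
        w i / w t * ((w t - y) / w t) * (tau w y a t * tau w y c t) -
        (w i - y) / w i * (tau w y a i * tau w y c i))) :
    l w y b * ((w i - y) * (ch w y c i * l w y a)) *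
      ((1 - w i) * (tau w y a t - tau w y a i) + R) ≤ (1 - w i) * Th w y a b c t i := by
  have wt := h.pos t
  have wi := h.pos i
  have la := l_pos h a
  have lb := l_pos h b
  have lc := l_pos h c
  have hi1 : w i ≤ 1 - w t := le_sigma h hi
  have z1 : 0 ≤ 1 - w i := by linarith
  obtain ⟨e0, e1⟩ := ep_bounds h ht b hi
  have ca : w t * ch w y a t = tau w y a t * l w y a := w_ch h a t
  have cb : w t * ch w y b t = tau w y b t * l w y b := w_ch h b t
  have cc : w t * ch w y c t = tau w y c t * l w y c := w_ch h c t
  have cai : w i * ch w y a i = tau w y a i * l w y a := w_ch h a i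
  have cci : w i * ch w y c i = tau w y c i * l w y c := w_ch h c i
  -- the left side
  have hL : l w y b * ((w i - y) * (ch w y c i * l w y a)) *
      ((1 - w i) * (tau w y a t - tau w y a i) + R) =
      (w i - y) / w i * tau w y c i * ((1 - w i) * (tau w y a t - tau w y a i) + R) *
        (l w y a * l w y b * l w y c) := by
    have : ch w y c i = tau w y c i * l w y c / w i := by
      rw [← cci]; field_simp
    rw [this]
    field_simp
  rw [hL]
  have hp : 0 ≤ l w y a * l w y b * l w y c := by positivity
  have m1 := mul_le_mul_of_nonneg_right h1 hp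
  have m2 := mul_le_mul_of_nonneg_right h2 hp
  have u1 : UU w y a c t * (w t * w t) = (w t - y) * (tau w y a t * l w y a) *
      (tau w y c t * l w y c) := by
    rw [UU, ← ca, ← cc]; ring
  have u2 : UU w y a c i * (w i * w i) = (w i - y) * (tau w y a i * l w y a) *
      (tau w y c i * l w y c) := by
    rw [UU, ← cai, ← cci]; ring
  have U1 : UU w y a c t = (w t - y) * (tau w y a t * l w y a) *
      (tau w y c t * l w y c) / (w t * w t) := by
    rw [← u1]; field_simp
  have U2 : UU w y a c i = (w i - y) * (tau w y a i * l w y a) *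
      (tau w y c i * l w y c) / (w i * w i) := by
    rw [← u2]; field_simp
  have CB : ch w y b t = tau w y b t * l w y b / w t := by
    rw [← cb]; field_simp
  rcases le_total (UU w y a c i) (UU w y a c t) with hθ | hθ
  · refine m1.trans ?_
    have h3 : (1 - w i) * tau w y b t * (((w t - y) / w t) ^ 2 *
        (tau w y a t * tau w y c t)) * (l w y a * l w y b * l w y c) =
        (1 - w i) * (w t * (UU w y a c t * DD w y b t)) := by
      rw [U1, DD, CB]
      field_simp
    rw [h3]
    refine mul_le_mul_of_nonneg_left ?_ z1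
    have h4 := mul_nonneg (mul_nonneg (mul_nonneg wt.le wi.le) e0) (sub_nonneg.2 hθ)
    rw [Th]
    linarith
  · refine m2.trans ?_
    have h3 : (1 - w i) * tau w y b t * (((w t - y) / w t) ^ 2 *
        (tau w y a t * tau w y c t) + w i / w t * ((w t - y) / w t) *
        (tau w y a t * tau w y c t) -
        (w i - y) / w i * (tau w y a i * tau w y c i)) * (l w y a * l w y b * l w y c) =
        (1 - w i) * (w t * (UU w y a c t * DD w y b t) +
          w t * w i * ch w y b t * (UU w y a c t - UU w y a c i)) := by
      rw [U1, U2, DD, CB]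
      field_simp
      try ring
    rw [h3]
    refine mul_le_mul_of_nonneg_left ?_ z1
    have h4 := mul_nonneg (mul_nonneg wt.le wi.le) (mul_nonneg (sub_nonneg.2 e1)
      (sub_nonneg.2 hθ))
    rw [Th]
    linarith

end Pool.Agent.Helper76.FU
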