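import Pool.Agent.Helper76.FU.Cond2
import Pool.Agent.Helper31.SW.Cond

/-!
S-world: the condition on the pairs, conclusion.
-/

set_option autoImplicit false

namespace Pool.Agent.Helper76.FU

open Pool.Agent.Helper4.SW Pool.Agent.Helper31.SW
open Finset

variable {q : ℕ} {w : Fin q → ℝ} {y : ℝ}

theorem tau_two (h : Hyp w y) (i : Fin q) : tau w y 2 i * l w y 2 = w i * (1 - w i) := by
  rw [tau_mul h, N, ch_two h]

theorem two_le_l (h : Hyp w y) (t : Fin q) : 2 * (w t * (1 - w t)) ≤ l w y 2 := by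
  rw [l_two h]
  have h1 : ∑ i ∈ univ.erase t, w i ^ 2 ≤ (1 - w t) * (1 - w t) := by
    calc ∑ i ∈ univ.erase t, w i ^ 2 ≤ ∑ i ∈ univ.erase t, (1 - w t) * w i := by
          refine sum_le_sum fun i hi => ?_
          rw [sq]
          exact mul_le_mul_of_nonneg_right (le_sigma h (ne_of_mem_erase hi)) (h.nn i)
      _ = _ := by rw [← mul_sum, sum_erase_top h]
  have h2 := add_sum_erase univ (fun i => w i ^ 2) (mem_univ t)
  have hy := h.hy
  nlinarith

theorem l_le_one (h : Hyp w y) {i t : Fin q} (hi : i ≠ t) :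
    l w y 2 ≤ (1 - w t) * (1 + w t) + y - w i ^ 2 := by
  rw [l_two h]
  have h1 := sum_le_sum_of_subset_of_nonneg (subset_univ ({i, t} : Finset (Fin q)))
    (f := fun i => w i ^ 2) (fun j _ _ => sq_nonneg _)
  rw [sum_pair hi] at h1
  nlinarith

theorem l_le_two (h : Hyp w y) {i k t : Fin q} (hi : i ≠ t) (hk : k ≠ t) (hik : i ≠ k) :
    l w y 2 ≤ (1 - w t) * (1 + w t) + y - w i ^ 2 - w k ^ 2 := by
  rw [l_two h]
  have h1 := sum_le_sum_of_subset_of_nonneg (subset_univ ({i, k, t} : Finset (Fin q)))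
    (f := fun i => w i ^ 2) (fun j _ _ => sq_nonneg _)
  rw [sum_insert (by simp [hi, hik]), sum_pair hk] at h1
  nlinarith

theorem T_ge (h : Hyp w y) {t : Fin q} (ht : Top w t) {a : ℕ} (ha : 2 ≤ a) :
    w t * (1 - w t) ≤ tau w y a t * l w y 2 := by
  have h1 := T_even h ht even_two (a - 2)
  rw [show 2 + (a - 2) = a by omega] at h1
  rw [← tau_two h t]
  exact mul_le_mul_of_nonneg_right h1 (l_pos h 2).le

theorem H_le (h : Hyp w y) {t : Fin q} (ht : Top w t) {a : ℕ} (ha : 2 ≤ a) (i : Fin q) :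
    tau w y a i * (w t * (1 - w t)) ≤ w i * (1 - w i) * tau w y a t := by
  have h1 := R_even h ht even_two (a - 2) i
  rw [show 2 + (a - 2) = a by omega] at h1
  rw [← tau_two h t, ← tau_two h i]
  have := mul_le_mul_of_nonneg_right h1 (l_pos h 2).le
  linarith

theorem GH_le (h : Hyp w y) {t : Fin q} (ht : Top w t) {a c : ℕ} (ha : Even a) (hc : Odd c)
    (i : Fin q) : tau w y c i * tau w y a t ≤ tau w y a i * tau w y c t := by
  obtain ⟨lam, hp⟩ := exists_perA h
  have hl := hp.1
  have wt := h.pos t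
  have wi := h.pos i
  have h1 := R_lim_odd h hp ht hc i
  have h2 := R_lim_even h hp ht ha i
  have h3 := mul_le_mul_of_nonneg_right h1 (tau_nn h a t)
  have h4 := mul_le_mul_of_nonneg_right h2 (tau_nn h c t)
  have h5 : w t * (lam + w i) * (tau w y c i * tau w y a t) ≤
      w t * (lam + w i) * (tau w y a i * tau w y c t) := by linarith
  exact le_of_mul_le_mul_left h5 (mul_pos wt (by linarith))

/-- the final step -/
theorem fin_step {X0 D0 SH z Ta τa α Θ Y' ED σ : ℝ} (hX0 : 0 < X0) (hD : 0 ≤ D0) (hSH : 0 ≤ SH)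
    (hSH' : SH ≤ D0 * (σ - z)) (hz : X0 + σ = 1) (hz1 : z ≤ σ)
    (hED : X0 * D0 + SH ≤ ED) (hα : 0 ≤ α) (hY : 0 ≤ Y') (hT : τa ≤ Ta)
    (hE : α * ((1 - z) * (Ta - τa) + (σ - z) * Y') ≤ (1 - z) * Θ) :
    α * (X0 * D0 * (Ta - τa) + SH * ((Ta - τa) + Y')) ≤ ED * Θ := by
  have h1 : 0 < 1 - z := by linarith
  have h2 : 0 ≤ (σ - z) * Y' := mul_nonneg (by linarith) hY
  have h3 : α * (Ta - τa) ≤ Θ := by
    have : (1 - z) * (α * (Ta - τa)) ≤ (1 - z) * Θ := by
      have := mul_nonneg hα h2
      linarith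
    exact le_of_mul_le_mul_left this h1
  have hΘ : 0 ≤ Θ := le_trans (mul_nonneg hα (sub_nonneg.2 hT)) h3
  refine le_trans ?_ (mul_le_mul_of_nonneg_right hED hΘ)
  rcases le_total (α * ((Ta - τa) + Y')) Θ with h4 | h4
  · have h5 := mul_le_mul_of_nonneg_left h3 (mul_nonneg hX0.le hD)
    have h6 := mul_le_mul_of_nonneg_left h4 hSH
    linarith
  · have h5 := mul_le_mul_of_nonneg_right hSH' (sub_nonneg.2 h4)
    have h6 := mul_le_mul_of_nonneg_left hE hD
    have e1 : 1 - z = X0 + (σ - z) := by linarith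
    rw [e1] at h6
    linarith

theorem claim3 (h : Hyp w y) {t : Fin q} (ht : Top w t) {a b c : ℕ} (ha : Even a) (ha2 : 2 ≤ a)
    (hb : 2 ≤ b) (hc : Odd c) {i : Fin q} (hi : i ≠ t) (n : ℕ) :
    l w y b * (w t * (DD w y n t * ((w i - y) * (ch w y c i * l w y a)) *
        (tau w y a t - tau w y a i)) +
      ∑ k ∈ univ.filter (fun k => k ≠ t ∧ w i < w k),
        w k * (DD w y n k * ((w i - y) * (ch w y c i * l w y a)) *
          ((tau w y a t - tau w y a i) + (1 - tau w y a t) * (1 - w i / w k) / 2))) ≤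
      E w (DD w y n) * Th w y a b c t i := by
  have hy := h.hy
  have wt := h.pos t
  have wi := h.pos i
  have vi := sub_pos.2 (h.lt i)
  have la := l_pos h a
  have lb := l_pos h b
  have hit := lt_top h ht hi
  have hσ := le_sigma h hi
  have hh := top_half h ht
  have hT1 := tau_le_one h a t
  have hTτ := tau_mono h a (ht i)
  have hcpos : 0 < tau w y c t := by
    obtain ⟨c', rfl⟩ : ∃ c', c = c' + 1 := ⟨c - 1, by have := hc.pos; omega⟩
    exact tau_pos_top h h.two ht c'
  set α := l w y b * ((w i - y) * (ch w y c i * l w y a)) with hα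
  have hα0 : 0 ≤ α := mul_nonneg lb.le (mul_nonneg vi.le (mul_nonneg (ch_nn h c i) la.le))
  set S := univ.filter (fun k => k ≠ t ∧ w i < w k) with hS
  set SH := ∑ k ∈ S, w k * DD w y n k with hSH
  have hSH0 : 0 ≤ SH := sum_nonneg fun k _ => mul_nonneg (h.nn k) (DD_nn h n k)
  have hSH' : SH ≤ DD w y n t * ((1 - w t) - w i) := by
    have h1 : SH ≤ ∑ k ∈ S, DD w y n t * w k := by
      refine sum_le_sum fun k _ => ?_
      rw [mul_comm]
      exact mul_le_mul_of_nonneg_right (DD_mono h n (ht k)) (h.nn k)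
    rw [← mul_sum] at h1
    refine h1.trans (mul_le_mul_of_nonneg_left ?_ (DD_nn h n t))
    have hiS : i ∉ S := by rw [hS, mem_filter]; exact fun hh => lt_irrefl _ hh.2.2
    have h2 : ∑ k ∈ insert i S, w k ≤ ∑ k ∈ univ.erase t, w k := by
      refine sum_le_sum_of_subset_of_nonneg ?_ fun k _ _ => h.nn k
      intro k hk
      rw [mem_insert] at hk
      rcases hk with rfl | hk
      · exact mem_erase.2 ⟨hi, mem_univ _⟩
      · rw [hS, mem_filter] at hk
        exact mem_erase.2 ⟨hk.2.1, mem_univ _⟩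
    rw [sum_insert hiS, sum_erase_top h t] at h2
    linarith
  have hED : w t * DD w y n t + SH ≤ E w (DD w y n) := by
    have htS : t ∉ S := by rw [hS, mem_filter]; exact fun hh => hh.2.1 rfl
    have h2 : ∑ k ∈ insert t S, w k * DD w y n k ≤ ∑ k, w k * DD w y n k :=
      sum_le_sum_of_subset_of_nonneg (subset_univ _) fun k _ _ =>
        mul_nonneg (h.nn k) (DD_nn h n k)
    rw [sum_insert htS] at h2
    exact h2
  have f1 := T_ge h ht ha2
  have f2 := T_ge h ht hb
  have f3 := GH_le h ht ha hc i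
  have f4 := H_le h ht ha2 i
  have f5 := two_le_l h t
  have P0 : 0 < w t * (1 - w t) := mul_pos wt (by linarith)
  rcases S.eq_empty_or_nonempty with hSe | hSn
  · -- the second largest colour
    have hSH00 : SH = 0 := by rw [hSH, hSe, sum_empty]
    obtain ⟨g1, g2⟩ := E3B hy (h.lt i) hσ (by linarith) (by ring) f5 (l_le_one h hi) f1 f2
      hcpos (tau_nn h c i) f3 f4
    have g3 := Th_ge h ht a b c hi (R := 0) (by rw [add_zero]; exact g1)
      (by rw [add_zero]; exact g2)
    rw [← hα] at g3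
    have g4 := fin_step (Y' := 0) (σ := 1 - w t) wt (DD_nn h n t) hSH0 hSH' (by ring) hσ hED hα0
      le_rfl hTτ (by rw [mul_zero]; exact g3)
    refine le_trans (le_of_eq ?_) g4
    rw [hSe, sum_empty, hSH00, hα]
    ring
  · -- the other colours
    obtain ⟨k0, hk0, hmax⟩ := exists_max_image S w hSn
    have hk0' := hk0
    rw [hS, mem_filter] at hk0'
    obtain ⟨_, hk0t, hik0⟩ := hk0'
    have wk0 := h.pos k0
    have hne : i ≠ k0 := fun e => by rw [e] at hik0; exact lt_irrefl _ hik0
    have hs : w i + w k0 ≤ 1 - w t := by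
      have h2 := sum_le_sum_of_subset_of_nonneg (s := {i, k0}) (t := univ.erase t)
        (f := w) (by
          intro x hx
          rw [mem_insert, mem_singleton] at hx
          rcases hx with rfl | rfl
          · exact mem_erase.2 ⟨hi, mem_univ _⟩
          · exact mem_erase.2 ⟨hk0t, mem_univ _⟩) (fun x _ _ => h.nn x)
      rw [sum_pair hne, sum_erase_top h t] at h2
      exact h2
    obtain ⟨g1, g2⟩ := E3A hy (h.lt i) hik0.le hs (by linarith) (by ring) (by linarith)
      (l_le_two h hi hk0t hne) f1 f2 hcpos (tau_nn h c i) f3 f4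
    have g3 := Th_ge h ht a b c hi g1 g2
    rw [← hα] at g3
    have hzm : 0 ≤ 1 - w i / w k0 := by
      rw [sub_nonneg, div_le_one wk0]; exact hik0.le
    have hY : 0 ≤ (1 - tau w y a t) * (1 - w i / w k0) / 2 :=
      div_nonneg (mul_nonneg (by linarith) hzm) zero_le_two
    have g4 := fin_step (σ := 1 - w t) wt (DD_nn h n t) hSH0 hSH' (by ring) hσ hED hα0
      hY hTτ g3
    refine le_trans ?_ g4
    have h3 : ∑ k ∈ S, w k * (DD w y n k * ((w i - y) * (ch w y c i * l w y a)) *
          ((tau w y a t - tau w y a i) + (1 - tau w y a t) * (1 - w i / w k) / 2)) ≤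
        (w i - y) * (ch w y c i * l w y a) * (SH * ((tau w y a t - tau w y a i) +
          (1 - tau w y a t) * (1 - w i / w k0) / 2)) := by
      rw [hSH, sum_mul, mul_sum]
      refine sum_le_sum fun k hk => ?_
      have wk := h.pos k
      have h4 : w i / w k0 ≤ w i / w k :=
        div_le_div_of_nonneg_left wi.le wk (hmax k hk)
      have h5 : (1 - tau w y a t) * (1 - w i / w k) / 2 ≤
          (1 - tau w y a t) * (1 - w i / w k0) / 2 := by
        have := mul_le_mul_of_nonneg_left h4 (sub_nonneg.2 hT1)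
        linarith
      have h6 : 0 ≤ (w i - y) * (ch w y c i * l w y a) * (w k * DD w y n k) :=
        mul_nonneg (mul_nonneg vi.le (mul_nonneg (ch_nn h c i) la.le))
          (mul_nonneg wk.le (DD_nn h n k))
      have h7 := mul_le_mul_of_nonneg_left (add_le_add_left h5 (tau w y a t - tau w y a i)) h6
      linarith
    have h4 := mul_le_mul_of_nonneg_left h3 lb.le
    rw [hα]
    linarith

end Pool.Agent.Helper76.FU
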