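import Pool.Agent.Helper76.FU.Fus

/-!
S-world: leg child of odd size, a leg of `w` of even size and another leg of size at least two.
-/

set_option autoImplicit false

namespace Pool.Agent.Helper76.FU

open Pool.Agent.Helper6.HL hiding X
open Pool.Agent.Helper4.SW Pool.Agent.Helper31.SW
open Finset Polynomial

variable {q : ℕ} {w : Fin q → ℝ} {y : ℝ}

theorem S1_eq (h : Hyp w y) (Λ : ℝ[X]) (a b c : ℕ) :
    E w (fun i => UU w y a c i * hat w (Λ * (X * (Polynomial.C (l w y b) - psi w y b))) i) =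
    E w (fun i => hat w Λ i * ∑ d ∈ univ.erase i,
        w d * (DD w y b d * UU w y a c d + w i * ((DD w y b d - DD w y b i) / (w d - w i)) *
          (UU w y a c d - UU w y a c i))) := by
  have e1 : ∀ i, hat w (Λ * (X * (Polynomial.C (l w y b) - psi w y b))) i =
      aeval (K' w) (X * (Polynomial.C (l w y b) - psi w y b)) (hat w Λ) i := by
    intro i
    rw [mul_comm Λ, hat_mul]
  have e2 : E w (fun i => UU w y a c i *
      aeval (K' w) (X * (Polynomial.C (l w y b) - psi w y b)) (hat w Λ) i) =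
      E w (fun i => aeval (K' w) (X * (Polynomial.C (l w y b) - psi w y b)) (UU w y a c) i *
        hat w Λ i) := (E_aeval_mul w _ (UU w y a c) (hat w Λ)).symm
  simp only [e1]
  rw [e2]
  congr 1
  funext i
  rw [star_X h.inj, mul_comm]
  congr 1
  refine sum_congr rfl fun d _ => ?_
  have e3 : ∀ i, hat w (Polynomial.C (l w y b) - psi w y b) i = DD w y b i := by
    intro i
    rw [map_sub, hat_C, Pi.sub_apply, hat_psi_DD]
    ring
  rw [e3, e3]

theorem Xi_nn (h : Hyp w y) (a b c : ℕ) {B : Fin q → ℝ} (hB : Cone w B) :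
    0 ≤ E w (fun i => B i * ∑ d ∈ univ.erase i,
        w d * (DD w y b d * UU w y a c d + w i * ((DD w y b d - DD w y b i) / (w d - w i)) *
          (UU w y a c d - UU w y a c i))) := by
  set θ := UU w y a c
  set β := DD w y b
  have e1 : E w (fun i => B i * ∑ d ∈ univ.erase i,
        w d * (β d * θ d + w i * ((β d - β i) / (w d - w i)) * (θ d - θ i))) =
      ∑ i, ∑ d ∈ univ.erase i, w i * w d *
        (B i * (β d * θ d + w i * ((β d - β i) / (w d - w i)) * (θ d - θ i))) := by
    rw [E]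
    refine sum_congr rfl fun i _ => ?_
    rw [mul_sum, mul_sum]
    exact sum_congr rfl fun d _ => by ring
  rw [e1, symsum h.inj]
  refine sum_nonneg fun i _ => sum_nonneg fun k hk => ?_
  rw [mem_filter] at hk
  have hik := hk.2
  have wi := h.pos i
  have wk := h.pos k
  have hε : (β k - β i) / (w k - w i) * (w k - w i) = β k - β i :=
    div_mul_cancel₀ _ (sub_pos.2 hik).ne'
  have hε' : (β i - β k) / (w i - w k) = (β k - β i) / (w k - w i) := by
    rw [← neg_sub (β k), ← neg_sub (w k), neg_div_neg_eq]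
  have hε0 : 0 ≤ (β k - β i) / (w k - w i) :=
    div_nonneg (sub_nonneg.2 (DD_mono h b hik.le)) (sub_pos.2 hik).le
  have h1 := bracket_nn wk.le hε hε0 (UU_nn h a c i) (UU_nn h a c k)
    (DD_nn h b i) (hB.nn i) (hB.nn k) (hB.anti i k hik.le) (hB.mono i k hik.le)
  have h2 := mul_nonneg (mul_nonneg wi.le wk.le) h1
  rw [hε']
  linarith

theorem SS_cons (Λ : ℝ[X]) (a c b : ℕ) (J : List ℕ) : SS w y Λ a c (b :: J) =
    pv w y J * E w (fun i => UU w y a c i *
      hat w (Λ * (X * (Polynomial.C (l w y (b + 1)) - psi w y (b + 1)))) i) +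
    SS w y (Λ * psi w y (b + 1)) a c J := by
  rw [SS, SS, ← E_const_mul, ← E_add']
  congr 1
  funext i
  have e : Λ * (X * (Polynomial.C (pv w y (b :: J)) - ph w y (b :: J))) =
      Polynomial.C (pv w y J) * (Λ * (X * (Polynomial.C (l w y (b + 1)) - psi w y (b + 1)))) +
      Λ * psi w y (b + 1) * (X * (Polynomial.C (pv w y J) - ph w y J)) := by
    rw [pv_cons, ph_cons, Polynomial.C_mul]
    ring
  rw [e, map_add, Pi.add_apply, hat_C_mul, Pi.smul_apply, smul_eq_mul]
  ring

theorem SS_nn (h : Hyp w y) (a c : ℕ) (J : List ℕ) : ∀ {Λ : ℝ[X]}, NN Λ →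
    0 ≤ SS w y Λ a c J := by
  induction J with
  | nil =>
    intro Λ _
    have e : ∀ i, hat w (Λ * (X * (Polynomial.C (pv w y []) - ph w y []))) i = 0 := by
      intro i
      rw [pv_nil, ph_nil, Polynomial.C_1, sub_self, mul_zero, mul_zero, map_zero]
      rfl
    rw [SS]
    simp only [e, mul_zero]
    simp [E]
  | cons b J ih =>
    intro Λ hΛ
    rw [SS_cons, S1_eq h]
    exact add_nonneg (mul_nonneg (pv_nn h J) (Xi_nn h a (b + 1) c (Cone.hat h.nn hΛ)))
      (ih (hΛ.mul (psi_NN h.nn h.hy.le _)))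

theorem E_DD (h : Hyp w y) (s : ℕ) : E w (DD w y s) = l w y s - l w y (s + 1) := by
  have h1 := (merge_id w y s 1).2
  rw [l_one h, mul_one] at h1
  have e1 : (fun k => (w k - y) * ch w y s k * ch w y 1 k) = DD w y s := by
    funext k; rw [ch_one, DD]; ring
  rw [e1] at h1
  linarith

/-- the fusion pair -/
theorem fus_imp (h : Hyp w y) {a b c : ℕ} (ha : Odd a) (hb : 1 ≤ b) (hc : Even c)
    (J : List ℕ) : Imp w y (.cons (R (a :: b :: J)) (R [c])) := by
  intro A Λ hA hΛ
  obtain ⟨t, ht⟩ := exists_top' h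
  have hy := h.hy
  have hBc : Cone w (hat w Λ) := Cone.hat h.nn hΛ
  have hφc : Cone w (hat w (ph w y (b :: J))) := Cone.hat h.nn (ph_NN h _)
  set φ := hat w (ph w y (b :: J)) with hφ
  set p := pv w y (b :: J) with hp
  have hp0 : 0 ≤ p := pv_nn h _
  set n := a + 1 + (c + 1) with hn
  set e := E w (UU w y (a + 1) (c + 1)) with he
  set EU := E w (UU w y (a + 1 + 1) (c + 1)) with hEU
  set ED := E w (DD w y n) with hED
  -- the values of the constants
  have v1 := E_UU (w := w) (y := y) (a + 1) (c + 1)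
  have v2 := E_UU (w := w) (y := y) (a + 1 + 1) (c + 1)
  have v3 := E_DD h (a + 1)
  have v4 := E_DD h n
  rw [← he, ← hn] at v1
  rw [← hEU, show a + 1 + 1 + (c + 1) = n + 1 by omega] at v2
  rw [← hED] at v4
  -- positivity
  have hED0 : 0 < ED := by
    have h1 : 0 < tau w y (a + 1 + c + 1) t := tau_pos_top h h.two ht (a + 1 + c)
    have h2 : 0 < ch w y n t := by
      have h3 := w_ch h n t
      have h4 : n = a + 1 + c + 1 := by omega
      rw [← h4] at h1
      have h5 : 0 < w t * ch w y n t := by rw [h3]; exact mul_pos h1 (l_pos h n)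
      exact (pos_iff_pos_of_mul_pos h5).1 (h.pos t)
    have h3 : w t * DD w y n t ≤ ED := le_E h.nn (DD_nn h n) t
    have h4 : 0 < w t * DD w y n t := mul_pos (h.pos t) (mul_pos (sub_pos.2 (h.lt t)) h2)
    linarith
  have hd0 : 0 ≤ E w (fun i => φ i * DD w y n i) :=
    E_nonneg h.nn fun i => mul_nonneg (hφc.nn i) (DD_nn h n i)
  -- (r)
  have hr : EU ≤ ED := by
    have h1 := l_super h (a + 1) c
    rw [← hn] at h1
    linarith
  -- (R1)
  have hR1 : EU * E w (fun i => φ i * DD w y n i) ≤
      E w (fun i => φ i * (e - l w y (c + 1) * DD w y (a + 1) i + DD w y n i)) * ED := by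
    have h1 := cheb h.nn h.inj (φ := φ)
      (κ := fun i => e - l w y (c + 1) * DD w y (a + 1) i + DD w y n i) (D := DD w y n)
      (fun i j hij => ⟨hφc.anti i j hij.le, slope_pair h hc n hij he⟩)
    have h2 : E w (fun i => e - l w y (c + 1) * DD w y (a + 1) i + DD w y n i) = EU := by
      rw [E_add' (fun i => e - l w y (c + 1) * DD w y (a + 1) i) (DD w y n),
        E_sub (fun _ => e) (fun i => l w y (c + 1) * DD w y (a + 1) i), E_const h, E_const_mul,
        v3, ← hED, v4]
      linear_combination v2 - v1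
    rw [h2] at h1
    exact h1
  -- (KEY)
  have hK : 0 ≤ EU * (p * E w (fun i => hat w Λ i * DD w y n i)) +
      ED * (-(p * E w (fun i => hat w Λ i * UU w y (a + 1 + 1) (c + 1) i)) +
        SS w y Λ (a + 1) (c + 1) (b :: J)) := by
    have ha1 : 1 ≤ a := ha.pos
    have h1 := key h ht (a := a + 1) (b := b + 1) (c := c + 1) ha.add_one (by omega) (by omega)
      hc.add_one hBc
    rw [← hn, ← hEU, ← hED] at h1
    rw [SS_cons, S1_eq h, hp, pv_cons]
    have h2 := SS_nn h (a + 1) (c + 1) J (hΛ.mul (psi_NN h.nn h.hy.le (b + 1)))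
    have h3 := mul_nonneg (pv_nn h J) h1
    have h4 := mul_nonneg hED0.le h2
    linarith
  set a1 := E w (fun i => φ i * (e - l w y (c + 1) * DD w y (a + 1) i + DD w y n i)) with ha1
  set d := E w (fun i => φ i * DD w y n i) with hd
  set bd := p * E w (fun i => hat w Λ i * DD w y n i) with hbd
  set H := -(p * E w (fun i => hat w Λ i * UU w y (a + 1 + 1) (c + 1) i)) +
        SS w y Λ (a + 1) (c + 1) (b :: J) with hH
  have hCL := D_CL (w := w) (y := y) A Λ a c (b :: J)
  have hLC := D_LC (w := w) (y := y) A Λ a c (b :: J)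
  rw [← hn, ← hφ, ← hp, ← he, ← ha1] at hCL
  rw [← hn, ← hφ, ← hp, ← hd, ← hbd] at hLC
  have hEU0 : 0 ≤ EU := E_nonneg h.nn (UU_nn h _ _)
  have lR1 := lv_R (a :: b :: J)
  have lR2 := lv_R ((a + c + 1) :: b :: J)
  have lR3 := lv_R (b :: J)
  have lR4 := lv_R [c]
  have lR5 := lv_R [a + c + 1]
  simp only [List.length_cons, List.length_nil] at lR1 lR2 lR3 lR4 lR5
  rcases le_total bd (A * d) with hcase | hcase
  · refine ⟨.cons (R ((a + c + 1) :: b :: J)) .nil, ⟨?_, Or.inl ?_⟩, ?_⟩
    · simp only [R, B.size, B.size_path]; omega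
    · simp only [lv, lR1, lR2, lR4]; omega
    · have h1 : 0 ≤ ED * (A * a1 + H) := by
        have h2 := mul_le_mul_of_nonneg_left hR1 hA
        have h3 := mul_le_mul_of_nonneg_left hcase hEU0
        linarith
      have h2 := nonneg_of_mul_nonneg_right h1 hED0
      have h3 := mul_nonneg hy.le h2
      rw [hH] at h3
      linarith
  · refine ⟨.cons (R (b :: J)) (R [a + c + 1]), ⟨?_, Or.inl ?_⟩, ?_⟩
    · simp only [R, B.size, B.size_path]; omega
    · simp only [lv, lR1, lR3, lR4, lR5]; omega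
    · have h1 : 0 ≤ ED * (A * a1 + H - A * d + bd) := by
        have h2 := mul_le_mul_of_nonneg_left hR1 hA
        have h3 := mul_le_mul_of_nonneg_left hcase (sub_nonneg.2 hr)
        linarith
      have h2 := nonneg_of_mul_nonneg_right h1 hED0
      have h3 := mul_nonneg hy.le h2
      rw [hH] at h3
      linarith

end Pool.Agent.Helper76.FU
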