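import Pool.Agent.Helper76.FU.Key
import Pool.Agent.Helper4.SW.Asm

/-!
S-world: the fusion pair.
-/

set_option autoImplicit false

namespace Pool.Agent.Helper76.FU

open Pool.Agent.Helper6.HL hiding X
open Pool.Agent.Helper4.SW Pool.Agent.Helper31.SW
open Finset Polynomial

variable {q : ℕ} (w : Fin q → ℝ) (y : ℝ)

/-- the value and the polynomial of the legs `J` -/
noncomputable def pv (J : List ℕ) : ℝ := (st w y (R J)).a

noncomputable def ph (J : List ℕ) : ℝ[X] := (st w y (R J)).p

/-- the defect functional -/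
noncomputable def SS (Λ : ℝ[X]) (a c : ℕ) (J : List ℕ) : ℝ :=
  E w (fun i => UU w y a c i * hat w (Λ * (X * (Polynomial.C (pv w y J) - ph w y J))) i)

variable {w y}

theorem st_R_cons (j : ℕ) (J : List ℕ) : st w y (R (j :: J)) =
    ⟨l w y (j + 1) * pv w y J, psi w y (j + 1) * ph w y J⟩ := by
  have e : R (j :: J) = (B.path (j + 1)).app (R J) := rfl
  rw [e, st_app]
  rfl

theorem pv_cons (j : ℕ) (J : List ℕ) : pv w y (j :: J) = l w y (j + 1) * pv w y J := by
  rw [pv, st_R_cons]

theorem ph_cons (j : ℕ) (J : List ℕ) : ph w y (j :: J) = psi w y (j + 1) * ph w y J := by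
  rw [ph, st_R_cons]

theorem pv_nil : pv w y [] = 1 := rfl

theorem ph_nil : ph w y [] = 1 := rfl

theorem pv_nn (h : Hyp w y) (J : List ℕ) : 0 ≤ pv w y J := (st_nonneg h.nn h.hy.le _).1

theorem ph_NN (h : Hyp w y) (J : List ℕ) : NN (ph w y J) := (st_nonneg h.nn h.hy.le _).2

theorem hat_psi_DD (s : ℕ) (i : Fin q) : hat w (psi w y s) i = l w y s - DD w y s i :=
  hat_psi w y s i

theorem L_psi (p : ℝ[X]) (s : ℕ) : L w (psi w y s * p) =
    l w y s * E w (hat w p) - E w (fun i => hat w p i * DD w y s i) := by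
  rw [Pool.Agent.Helper4.SW.L_mul, ← E_const_mul, ← E_sub]
  congr 1
  funext i
  rw [hat_psi_DD]
  ring

theorem E_UU (a c : ℕ) : l w y a * l w y c = l w y (a + c) + E w (UU w y a c) :=
  (merge_id w y a c).2

theorem hat_merge (a c : ℕ) (i : Fin q) : hat w (psi w y a * psi w y c) i =
    hat w (psi w y (a + c)) i - y * UU w y a c i := (merge_id w y a c).1 i

/-- the first functional -/
theorem E_hat_UU (Λ : ℝ[X]) (a c : ℕ) (r : ℝ) :
    E w (fun i => UU w y a c i * hat w (Λ * (X * Polynomial.C r)) i) =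
      r * (E w (UU w y a c) * E w (hat w Λ) -
        E w (fun i => UU w y a c i * (w i * hat w Λ i))) := by
  have e : ∀ i, hat w (Λ * (X * Polynomial.C r)) i = r * (E w (hat w Λ) - w i * hat w Λ i) := by
    intro i
    have : Λ * (X * Polynomial.C r) = Polynomial.C r * (X * Λ) := by ring
    rw [this, hat_C_mul, Pi.smul_apply, smul_eq_mul, hat_X_mul, K'_apply]
  have e2 : (fun i => UU w y a c i * hat w (Λ * (X * Polynomial.C r)) i) =
      fun i => r * (E w (hat w Λ) * UU w y a c i - UU w y a c i * (w i * hat w Λ i)) := by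
    funext i
    rw [e]
    ring
  rw [e2, E_const_mul, E_sub, E_const_mul]
  ring

theorem U_eq_l (a c : ℕ) (i : Fin q) : UU w y (a + 1) c i =
    l w y a * DD w y c i - w i * UU w y a c i := by
  rw [UU, ch_succ, DD, UU]
  ring

/-- first difference -/
theorem D_CL (A : ℝ) (Λ : ℝ[X]) (a c : ℕ) (J : List ℕ) :
    Z w y A Λ (.cons (R (a :: J)) (R [c])) -
      Z w y A Λ (.cons (R ((a + c + 1) :: J)) .nil) =
    y * (A * E w (fun i => hat w (ph w y J) i * (E w (UU w y (a + 1) (c + 1)) -
        l w y (c + 1) * DD w y (a + 1) i + DD w y (a + 1 + (c + 1)) i)) -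
      pv w y J * E w (fun i => hat w Λ i * UU w y (a + 1 + 1) (c + 1) i) +
      SS w y Λ (a + 1) (c + 1) J) := by
  have hT : st w y (.cons (R (a :: J)) (R [c])) =
      ⟨L w (psi w y (a + 1) * ph w y J) * l w y (c + 1),
        (Polynomial.C (y * (l w y (a + 1) * pv w y J)) +
          X * (psi w y (a + 1) * ph w y J)) * psi w y (c + 1)⟩ := by
    simp only [st, st_R_cons, pv_nil, ph_nil, mul_one]
  have hC : st w y (.cons (R ((a + c + 1) :: J)) .nil) =
      ⟨L w (psi w y (a + 1 + (c + 1)) * ph w y J),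
        Polynomial.C (y * (l w y (a + 1 + (c + 1)) * pv w y J)) +
          X * (psi w y (a + 1 + (c + 1)) * ph w y J)⟩ := by
    simp only [st, st_R_cons, mul_one]
    rw [show a + c + 1 + 1 = a + 1 + (c + 1) by ring]
  rw [Z, Z, hT, hC]
  simp only
  set p := pv w y J
  set φ := ph w y J with hφ
  set n := a + 1 + (c + 1) with hn
  -- the parts of `Λ`
  have e1 : Λ * ((Polynomial.C (y * (l w y (a + 1) * p)) + X * (psi w y (a + 1) * φ)) *
      psi w y (c + 1)) = Polynomial.C (y * (l w y (a + 1) * p)) * (psi w y (c + 1) * Λ) +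
        Λ * (X * φ) * (psi w y (a + 1) * psi w y (c + 1)) := by ring
  have e2 : Λ * (Polynomial.C (y * (l w y n * p)) + X * (psi w y n * φ)) =
      Polynomial.C (y * (l w y n * p)) * Λ + Λ * (X * φ) * psi w y n := by ring
  rw [e1, e2, map_add, map_add, L_C_mul, L_C_mul, L_psi, L_psi, L_psi,
    Pool.Agent.Helper4.SW.L_mul, Pool.Agent.Helper4.SW.L_mul, L_def w Λ]
  have e3 : E w (fun i => hat w (Λ * (X * φ)) i * hat w (psi w y (a + 1) * psi w y (c + 1)) i) =
      E w (fun i => hat w (Λ * (X * φ)) i * hat w (psi w y n) i) -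
      y * E w (fun i => UU w y (a + 1) (c + 1) i * hat w (Λ * (X * φ)) i) := by
    rw [← E_const_mul, ← E_sub]
    congr 1
    funext i
    rw [hat_merge]
    ring
  rw [e3]
  have e4 : SS w y Λ (a + 1) (c + 1) J =
      E w (fun i => UU w y (a + 1) (c + 1) i * hat w (Λ * (X * Polynomial.C p)) i) -
      E w (fun i => UU w y (a + 1) (c + 1) i * hat w (Λ * (X * φ)) i) := by
    rw [SS, ← E_sub]
    congr 1
    funext i
    have : Λ * (X * (Polynomial.C p - φ)) = Λ * (X * Polynomial.C p) - Λ * (X * φ) := by ring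
    rw [this, map_sub, Pi.sub_apply]
    ring
  rw [e4, E_hat_UU]
  have e5 : E w (fun i => hat w Λ i * UU w y (a + 1 + 1) (c + 1) i) =
      l w y (a + 1) * E w (fun i => hat w Λ i * DD w y (c + 1) i) -
      E w (fun i => UU w y (a + 1) (c + 1) i * (w i * hat w Λ i)) := by
    rw [← E_const_mul, ← E_sub]
    congr 1
    funext i
    rw [U_eq_l]
    ring
  rw [e5]
  have e6 : E w (fun i => hat w φ i * (E w (UU w y (a + 1) (c + 1)) -
        l w y (c + 1) * DD w y (a + 1) i + DD w y n i)) =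
      E w (UU w y (a + 1) (c + 1)) * E w (hat w φ) -
      l w y (c + 1) * E w (fun i => hat w φ i * DD w y (a + 1) i) +
      E w (fun i => hat w φ i * DD w y n i) := by
    rw [← E_const_mul, ← E_const_mul, ← E_sub, ← E_add']
    congr 1
    funext i
    ring
  rw [e6]
  have e7 := E_UU (w := w) (y := y) (a + 1) (c + 1)
  rw [← hn] at e7
  have e8 : E w (UU w y (a + 1) (c + 1)) = l w y (a + 1) * l w y (c + 1) - l w y n := by
    rw [e7]; ring
  rw [e8]
  ring

/-- second difference -/
theorem D_LC (A : ℝ) (Λ : ℝ[X]) (a c : ℕ) (J : List ℕ) :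
    Z w y A Λ (.cons (R J) (R [a + c + 1])) -
      Z w y A Λ (.cons (R ((a + c + 1) :: J)) .nil) =
    y * (A * E w (fun i => hat w (ph w y J) i * DD w y (a + 1 + (c + 1)) i) -
      pv w y J * E w (fun i => hat w Λ i * DD w y (a + 1 + (c + 1)) i)) := by
  have hT : st w y (.cons (R J) (R [a + c + 1])) =
      ⟨L w (ph w y J) * l w y (a + 1 + (c + 1)),
        (Polynomial.C (y * pv w y J) + X * ph w y J) * psi w y (a + 1 + (c + 1))⟩ := by
    have e : a + 1 + (c + 1) = a + c + 1 + 1 := by ring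
    rw [e]
    simp only [st, R]
    rfl
  have hC : st w y (.cons (R ((a + c + 1) :: J)) .nil) =
      ⟨L w (psi w y (a + 1 + (c + 1)) * ph w y J),
        Polynomial.C (y * (l w y (a + 1 + (c + 1)) * pv w y J)) +
          X * (psi w y (a + 1 + (c + 1)) * ph w y J)⟩ := by
    simp only [st, st_R_cons, mul_one]
    rw [show a + c + 1 + 1 = a + 1 + (c + 1) by ring]
  rw [Z, Z, hT, hC]
  simp only
  set p := pv w y J
  set φ := ph w y J with hφ
  set n := a + 1 + (c + 1) with hn
  have e1 : Λ * ((Polynomial.C (y * p) + X * φ) * psi w y n) =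
      Polynomial.C (y * p) * (psi w y n * Λ) + Λ * X * φ * psi w y n := by ring
  have e2 : Λ * (Polynomial.C (y * (l w y n * p)) + X * (psi w y n * φ)) =
      Polynomial.C (y * (l w y n * p)) * Λ + Λ * X * φ * psi w y n := by ring
  rw [e1, e2, map_add, map_add, L_C_mul, L_C_mul, L_psi, L_psi, L_def w Λ, L_def w φ]
  ring

end Pool.Agent.Helper76.FU
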