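import Pool.Agent.Helper31.SW.Tau

/-!
S-world: divided differences of the functions `ch` (the off-diagonal entries of the corresponding
polynomials in `K'`), and the pair lemma.
-/

set_option autoImplicit false

namespace Pool.Agent.Helper76.FU

open Pool.Agent.Helper4.SW Pool.Agent.Helper31.SW
open Finset

variable {q : ℕ} (w : Fin q → ℝ) (y : ℝ)

/-- divided differences of `ch s` -/
noncomputable def C (s : ℕ) (j k : Fin q) : ℝ := (ch w y s j - ch w y s k) / (w k - w j)

variable {w y}

theorem C_comm (s : ℕ) (j k : Fin q) : C w y s j k = C w y s k j := by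
  unfold C
  rw [← neg_sub (ch w y s k), ← neg_sub (w j), neg_div_neg_eq]

theorem C_zero (j k : Fin q) : C w y 0 j k = 0 := by
  simp [C, ch_zero]

theorem ne_sub (h : Hyp w y) {j k : Fin q} (hjk : j ≠ k) : w k - w j ≠ 0 :=
  sub_ne_zero.2 fun e => hjk (h.inj e).symm

theorem C_mul (h : Hyp w y) (s : ℕ) {j k : Fin q} (hjk : j ≠ k) :
    C w y s j k * (w k - w j) = ch w y s j - ch w y s k := by
  rw [C, div_mul_cancel₀ _ (ne_sub h hjk)]

theorem C_succ (h : Hyp w y) (s : ℕ) {j k : Fin q} (hjk : j ≠ k) :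
    C w y (s + 1) j k = ch w y s k - w j * C w y s j k := by
  have hne := ne_sub h hjk
  unfold C
  rw [ch_succ, ch_succ]
  field_simp
  ring

theorem ch_nn (h : Hyp w y) (s : ℕ) (i : Fin q) : 0 ≤ ch w y s i := (Cone.ch h.nn h.hy.le s).nn i

theorem ch_anti (h : Hyp w y) (s : ℕ) {i j : Fin q} (hij : w i ≤ w j) :
    ch w y s j ≤ ch w y s i := (Cone.ch h.nn h.hy.le s).anti i j hij

theorem ch_mono (h : Hyp w y) (s : ℕ) {i j : Fin q} (hij : w i ≤ w j) :
    w i * ch w y s i ≤ w j * ch w y s j := (Cone.ch h.nn h.hy.le s).mono i j hij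

theorem C_nn (h : Hyp w y) (s : ℕ) (j k : Fin q) : 0 ≤ C w y s j k := by
  rcases le_total (w j) (w k) with hjk | hjk
  · exact div_nonneg (sub_nonneg.2 (ch_anti h s hjk)) (sub_nonneg.2 hjk)
  · exact div_nonneg_of_nonpos (sub_nonpos.2 (ch_anti h s hjk)) (sub_nonpos.2 hjk)

/-- the diagonal entries are nonnegative -/
theorem C_diag (h : Hyp w y) (s : ℕ) (j : Fin q) :
    ∑ k ∈ univ.erase j, w k * C w y s j k ≤ ch w y s j := by
  cases s with
  | zero =>
    simp only [C_zero, mul_zero, sum_const_zero]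
    exact ch_nn h 0 j
  | succ s =>
    have h1 : ∑ k ∈ univ.erase j, w k * C w y (s + 1) j k ≤ ∑ k ∈ univ.erase j, N w y s k := by
      refine sum_le_sum fun k hk => ?_
      rw [C_succ h s (ne_of_mem_erase hk).symm, N]
      have h2 := mul_nonneg (h.nn k) (mul_nonneg (h.nn j) (C_nn h s j k))
      linarith
    have h3 : N w y s j + ∑ k ∈ univ.erase j, N w y s k = ∑ k, N w y s k :=
      add_sum_erase _ _ (mem_univ j)
    have h4 := l_eq w y s
    have h5 := m_nn h s
    rw [ch_succ]
    have h6 : N w y s j = w j * ch w y s j := rfl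
    linarith

theorem C_two (h : Hyp w y) (s : ℕ) {i j k : Fin q} (hij : i ≠ j) (hi : i ≠ k) (hj : j ≠ k) :
    w i * C w y s i k + w j * C w y s j k ≤ ch w y s k := by
  refine le_trans ?_ (C_diag h s k)
  have h1 := sum_le_sum_of_subset_of_nonneg (s := {i, j}) (t := univ.erase k)
    (f := fun j => w j * C w y s k j) (by
      intro x hx
      rw [mem_insert, mem_singleton] at hx
      rcases hx with rfl | rfl
      · exact mem_erase.2 ⟨hi, mem_univ _⟩
      · exact mem_erase.2 ⟨hj, mem_univ _⟩)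
    (fun x _ _ => mul_nonneg (h.nn x) (C_nn h s k x))
  rw [sum_pair hij, C_comm s k i, C_comm s k j] at h1
  exact h1

/-- off its diagonal entry, a column is decreasing and `x` times it is increasing -/
theorem C_cone (h : Hyp w y) (s : ℕ) {i j k : Fin q} (hi : i ≠ k) (hj : j ≠ k) (hij : w i ≤ w j) :
    C w y s j k ≤ C w y s i k ∧ w i * C w y s i k ≤ w j * C w y s j k := by
  induction s with
  | zero => simp [C_zero]
  | succ s ih =>
    obtain ⟨ih1, ih2⟩ := ih
    rw [C_succ h s hi, C_succ h s hj]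
    refine ⟨by linarith, ?_⟩
    rcases eq_or_ne i j with e | hne
    · subst e; exact le_rfl
    · have h1 := C_two h s hne hi hj
      have h2 := mul_le_mul_of_nonneg_left h1 (sub_nonneg.2 hij)
      have h3 := mul_nonneg (mul_nonneg (h.nn i) (h.nn j)) (sub_nonneg.2 ih1)
      nlinarith

end Pool.Agent.Helper76.FU
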