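import Pool.Agent.Helper76.FU.Cond3

/-!
S-world: the key inequality of the fusion pair.
-/

set_option autoImplicit false

namespace Pool.Agent.Helper76.FU

open Pool.Agent.Helper4.SW Pool.Agent.Helper31.SW
open Finset

variable {q : ℕ} {w : Fin q → ℝ} {y : ℝ}

theorem symsum (hinj : Function.Injective w) (Q : Fin q → Fin q → ℝ) :
    ∑ i, ∑ k ∈ univ.erase i, Q i k =
      ∑ i, ∑ k ∈ univ.filter (fun k => w i < w k), (Q i k + Q k i) := by
  have h1 : ∀ i, ∑ k ∈ univ.erase i, Q i k =
      ∑ k, (if w i < w k then Q i k else 0) + ∑ k, (if w k < w i then Q i k else 0) := by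
    intro i
    rw [← filter_ne', sum_filter, ← sum_add_distrib]
    refine sum_congr rfl fun k _ => ?_
    by_cases hk : k = i
    · subst hk; simp
    · rw [if_pos hk]
      rcases lt_or_gt_of_ne (fun e : w i = w k => hk (hinj e).symm) with h2 | h2
      · rw [if_pos h2, if_neg (not_lt.2 h2.le), add_zero]
      · rw [if_neg (not_lt.2 h2.le), if_pos h2, zero_add]
  have h2 : ∑ i, ∑ k, (if w k < w i then Q i k else 0) =
      ∑ i, ∑ k, (if w i < w k then Q k i else 0) := sum_comm
  simp only [h1, sum_add_distrib]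
  rw [h2, ← sum_add_distrib, ← sum_add_distrib]
  refine sum_congr rfl fun i _ => ?_
  rw [← sum_filter, ← sum_filter]

/-- the symmetric bracket -/
theorem bracket {wi wk Bi Bk θi θk βi βk ε : ℝ} (hε : ε * (wk - wi) = βk - βi) :
    Bi * (βk * θk + wi * ε * (θk - θi)) + Bk * (βi * θi + wk * ε * (θi - θk)) =
      θk * (Bi * βi + (Bi - Bk) * (wk * ε)) + θi * (Bk * βi + ε * (wk * Bk - wi * Bi)) := by
  linear_combination (-Bi * θk) * hε

theorem bracket_nn {wi wk Bi Bk θi θk βi βk ε : ℝ} (hwk : 0 ≤ wk)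
    (hε : ε * (wk - wi) = βk - βi) (hε0 : 0 ≤ ε) (hθi : 0 ≤ θi) (hθk : 0 ≤ θk) (hβi : 0 ≤ βi)
    (hBi : 0 ≤ Bi) (hBk : 0 ≤ Bk) (hB : Bk ≤ Bi) (hwB : wi * Bi ≤ wk * Bk) :
    0 ≤ Bi * (βk * θk + wi * ε * (θk - θi)) + Bk * (βi * θi + wk * ε * (θi - θk)) := by
  rw [bracket hε]
  have h1 := sub_nonneg.2 hB
  have h2 := sub_nonneg.2 hwB
  positivity

theorem bracket_top {wi wt Bi Bt θi θt βi βt ε : ℝ}
    (hε : ε * (wt - wi) = βt - βi) (hθi : 0 ≤ θi) (hθt : 0 ≤ θt)
    (hβi : 0 ≤ βi) (hβt : 0 ≤ βt) (hBt : 0 ≤ Bt) :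
    (Bi - Bt) * (θt * (βt + wi * ε) - wi * ε * θi) ≤
      Bi * (βt * θt + wi * ε * (θt - θi)) + Bt * (βi * θi + wt * ε * (θi - θt)) := by
  have h1 : Bi * (βt * θt + wi * ε * (θt - θi)) + Bt * (βi * θi + wt * ε * (θi - θt)) =
      (Bi - Bt) * (θt * (βt + wi * ε) - wi * ε * θi) + Bt * (θt * βi + θi * βt) := by
    linear_combination (Bt * (θi - θt)) * hε
  rw [h1]
  have : 0 ≤ Bt * (θt * βi + θi * βt) := by positivity
  linarith

theorem key (h : Hyp w y) {t : Fin q} (ht : Top w t) {a b c : ℕ} (ha : Even a) (ha2 : 2 ≤ a)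
    (hb : 2 ≤ b) (hc : Odd c) {B : Fin q → ℝ} (hB : Cone w B) :
    0 ≤ l w y b * (E w (UU w y (a + 1) c) * E w (fun i => B i * DD w y (a + c) i) -
        E w (DD w y (a + c)) * E w (fun i => B i * UU w y (a + 1) c i)) +
      E w (DD w y (a + c)) * E w (fun i => B i * ∑ d ∈ univ.erase i,
        w d * (DD w y b d * UU w y a c d + w i * ((DD w y b d - DD w y b i) / (w d - w i)) *
          (UU w y a c d - UU w y a c i))) := by
  set D := DD w y (a + c) with hD
  set U := UU w y (a + 1) c with hU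
  set θ := UU w y a c with hθ
  set β := DD w y b with hβ
  set ED := E w D with hED
  have hED0 : 0 ≤ ED := E_nonneg h.nn (DD_nn h _)
  have lb := l_pos h b
  set Q : Fin q → Fin q → ℝ := fun i k =>
    l w y b * (w i * w k * (B i * (U k * D i - U i * D k))) +
      ED * (w i * w k * (B i * (β k * θ k + w i * ((β k - β i) / (w k - w i)) *
        (θ k - θ i)))) with hQ
  have e1 : l w y b * (E w U * E w (fun i => B i * D i) - ED * E w (fun i => B i * U i)) +
      ED * E w (fun i => B i * ∑ d ∈ univ.erase i,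
        w d * (β d * θ d + w i * ((β d - β i) / (w d - w i)) * (θ d - θ i))) =
      ∑ i, ∑ k ∈ univ.erase i, Q i k := by
    have e2 : ∀ i, ∑ k ∈ univ.erase i, Q i k =
        l w y b * ∑ k, (w i * w k * (B i * (U k * D i - U i * D k))) +
        ED * (w i * (B i * ∑ d ∈ univ.erase i,
        w d * (β d * θ d + w i * ((β d - β i) / (w d - w i)) * (θ d - θ i)))) := by
      intro i
      simp only [hQ, sum_add_distrib, ← mul_sum]
      congr 1
      · congr 1
        rw [← add_sum_erase univ _ (mem_univ i)]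
        simp [mul_comm (U i) (D i)]
      · congr 1
        rw [mul_sum, mul_sum]
        exact sum_congr rfl fun k _ => by ring
    simp only [e2, sum_add_distrib, ← mul_sum]
    congr 1
    congr 1
    have e3 : ∀ i k, w i * w k * (B i * (U k * D i - U i * D k)) =
        (w i * (B i * D i)) * (w k * U k) - (w i * (B i * U i)) * (w k * D k) := by
      intro i k; ring
    simp only [e3, sum_sub_distrib, ← mul_sum, ← sum_mul]
    rw [hED]
    simp only [E]
    ring
  rw [e1, symsum h.inj]
  refine sum_nonneg fun i _ => ?_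
  by_cases hi : i = t
  · subst hi
    have : univ.filter (fun k => w i < w k) = (∅ : Finset (Fin q)) := by
      rw [filter_eq_empty_iff]
      exact fun k _ => not_lt.2 (ht k)
    rw [this, sum_empty]
  have hit := lt_top h ht hi
  have wi := h.pos i
  have wt := h.pos t
  have vi := sub_pos.2 (h.lt i)
  have hBt := hB.nn t
  have hbi : 0 ≤ B i - B t := sub_nonneg.2 (hB.anti i t hit.le)
  set S := univ.filter (fun k => k ≠ t ∧ w i < w k) with hS
  have htS : t ∉ S := by rw [hS, mem_filter]; exact fun hh => hh.2.1 rfl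
  have eS : univ.filter (fun k => w i < w k) = insert t S := by
    ext k
    simp only [hS, mem_insert, mem_filter, mem_univ, true_and]
    constructor
    · intro hk
      by_cases hkt : k = t
      · exact Or.inl hkt
      · exact Or.inr ⟨hkt, hk⟩
    · rintro (rfl | hk)
      · exact hit
      · exact hk.2
  rw [eS, sum_insert htS]
  -- epsilon
  have hε : ∀ k, w i < w k → (β k - β i) / (w k - w i) * (w k - w i) = β k - β i :=
    fun k hk => div_mul_cancel₀ _ (sub_pos.2 hk).ne'
  have hε' : ∀ k, (β i - β k) / (w i - w k) = (β k - β i) / (w k - w i) := fun k => by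
    rw [← neg_sub (β k), ← neg_sub (w k), neg_div_neg_eq]
  -- the top
  have htop : w i * (B i - B t) * (l w y b * (w t * (U t * D i - U i * D t)) +
      ED * Th w y a b c t i) ≤ Q i t + Q t i := by
    have h1 := bracket_top (Bi := B i) (hε t hit) (UU_nn h a c i) (UU_nn h a c t)
      (DD_nn h b i) (DD_nn h b t) hBt
    have h2 := mul_le_mul_of_nonneg_left h1 (mul_nonneg hED0 (mul_nonneg wi.le wt.le))
    simp only [hQ, hε']
    rw [Th, ep, ← hθ, ← hβ]
    linarith
  -- the others
  set M : Fin q → ℝ := fun k => D k * ((w i - y) * (ch w y c i * l w y a)) *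
      ((tau w y a t - tau w y a i) + (1 - tau w y a t) * (1 - w i / w k) / 2) with hM
  have hmid : ∀ k ∈ S, -(w i * (B i - B t) * (l w y b * (w k * M k))) ≤ Q i k + Q k i := by
    intro k hk
    rw [hS, mem_filter] at hk
    obtain ⟨_, hkt, hik⟩ := hk
    have wk := h.pos k
    have hε0 : 0 ≤ (β k - β i) / (w k - w i) :=
      div_nonneg (sub_nonneg.2 (DD_mono h b hik.le)) (sub_pos.2 hik).le
    have h1 := bracket_nn wk.le (hε k hik) hε0 (UU_nn h a c i) (UU_nn h a c k)
      (DD_nn h b i) (hB.nn i) (hB.nn k) (hB.anti i k hik.le) (hB.mono i k hik.le)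
    have h2 := mul_nonneg (mul_nonneg hED0 (mul_nonneg wi.le wk.le)) h1
    have h3 : U i * D k - U k * D i ≤ M k := by
      obtain ⟨c', rfl⟩ : ∃ c', c = c' + 1 := ⟨c - 1, by have := hc.pos; omega⟩
      exact claim1 h ht a c' hkt hik
    have hM0 : 0 ≤ M k := by
      have hT1 := tau_le_one h a t
      have hTτ := tau_mono h a (ht i)
      have hzm : 0 ≤ 1 - w i / w k := by
        rw [sub_nonneg, div_le_one wk]; exact hik.le
      exact mul_nonneg (mul_nonneg (DD_nn h _ k) (mul_nonneg vi.le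
        (mul_nonneg (ch_nn h c i) (l_pos h a).le))) (add_nonneg (by linarith)
        (div_nonneg (mul_nonneg (by linarith) hzm) zero_le_two))
    have h4 : B i - B k ≤ B i - B t := by
      have := hB.anti k t (ht k)
      linarith
    have h5 : 0 ≤ B i - B k := sub_nonneg.2 (hB.anti i k hik.le)
    have h6 : (B i - B k) * (U i * D k - U k * D i) ≤ (B i - B t) * M k :=
      (mul_le_mul_of_nonneg_left h3 h5).trans (mul_le_mul_of_nonneg_right h4 hM0)
    have h7 := mul_le_mul_of_nonneg_left h6 (mul_nonneg lb.le (mul_nonneg wi.le wk.le))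
    simp only [hQ, hε']
    linarith
  have h3 := sum_le_sum hmid
  rw [sum_neg_distrib, ← mul_sum, ← mul_sum] at h3
  have c2 := claim2 h ht a hc i
  have c3 := claim3 h ht ha ha2 hb hc hi (a + c)
  rw [← hD, ← hU] at c2
  rw [← hD, ← hED, ← hS] at c3
  have h4 : 0 ≤ l w y b * (w t * (U t * D i - U i * D t)) + ED * Th w y a b c t i -
      l w y b * ∑ k ∈ S, w k * M k := by
    have c4 := mul_le_mul_of_nonneg_left c2 (mul_nonneg lb.le wt.le)
    linarith
  have h5 := mul_nonneg (mul_nonneg wi.le hbi) h4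
  linarith

end Pool.Agent.Helper76.FU
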