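import Pool.Agent.Helper76.FU.Ker

/-!
S-world: facts on the region `2 x_1 > 1 + y` and the pair lemma.
-/

set_option autoImplicit false

namespace Pool.Agent.Helper76.FU

open Pool.Agent.Helper4.SW Pool.Agent.Helper31.SW
open Finset

variable {q : ℕ} {w : Fin q → ℝ} {y : ℝ}

theorem exists_top' (h : Hyp w y) : ∃ t, Top w t := by
  have : Nonempty (Fin q) := ⟨⟨0, Hyp.q_pos h⟩⟩
  exact Finite.exists_max w

/-- the largest part is more than half of the total -/
theorem top_half (h : Hyp w y) {t : Fin q} (ht : Top w t) : 1 + y < 2 * w t := by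
  obtain ⟨i, hi⟩ := h.half
  have := ht i
  linarith

theorem sum_erase_top (h : Hyp w y) (t : Fin q) : ∑ i ∈ univ.erase t, w i = 1 - w t := by
  have := add_sum_erase univ w (mem_univ t)
  rw [h.one] at this
  linarith

theorem le_sigma (h : Hyp w y) {i t : Fin q} (hit : i ≠ t) : w i ≤ 1 - w t := by
  rw [← sum_erase_top h t]
  exact single_le_sum (f := w) (fun i _ => h.nn i) (mem_erase.2 ⟨hit, mem_univ i⟩)

theorem lt_top (h : Hyp w y) {i t : Fin q} (ht : Top w t) (hit : i ≠ t) : w i < w t :=
  lt_of_le_of_ne (ht i) fun e => hit (h.inj e)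

theorem y_lt_sigma (h : Hyp w y) (t : Fin q) : y < 1 - w t := by
  have h2 := h.two
  obtain ⟨s, hs⟩ : ∃ s : Fin q, s ≠ t := by
    by_contra hc
    push Not at hc
    have : Fintype.card (Fin q) ≤ 1 := Fintype.card_le_one_iff.2 fun a b => by
      rw [hc a, hc b]
    rw [Fintype.card_fin] at this
    omega
  exact (h.lt s).trans_le (le_sigma h hs)

/-- the Perron value in the region -/
theorem lam_ge (h : Hyp w y) {lam : ℝ} (hp : PerA w y lam) {t : Fin q} (ht : Top w t) :
    1 + y ≤ lam + w t := by
  by_contra hc
  rw [not_le] at hc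
  have hl := hp.1
  have hy := h.hy
  have wt := h.pos t
  have hh := top_half h ht
  have hys := y_lt_sigma h t
  set σ := 1 - w t with hσ
  have hσ0 : 0 < σ := hy.trans hys
  have h3 := PerA.sum hp
  rw [← add_sum_erase univ (fun i => w i / (lam + w i)) (mem_univ t)] at h3
  have hA : w t / (1 + y) < w t / (lam + w t) :=
    div_lt_div_of_pos_left wt (add_pos hl wt) hc
  have hB : ∀ i ∈ univ.erase t, w i / (2 * σ + y) ≤ w i / (lam + w i) := by
    intro i hi
    have h2 : w i ≤ σ := le_sigma h (ne_of_mem_erase hi)
    exact div_le_div_of_nonneg_left (h.nn i) (add_pos hl (h.pos i)) (by linarith)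
  have hB' := sum_le_sum hB
  rw [← sum_div, sum_erase_top h t, ← hσ] at hB'
  have hC : y / (2 * σ + y) ≤ y / (lam + y) :=
    div_le_div_of_nonneg_left hy.le (add_pos hl hy) (by linarith)
  have hD : (σ + y) / (1 + y) ≤ (σ + y) / (2 * σ + y) :=
    div_le_div_of_nonneg_left (by linarith) (by linarith) (by linarith)
  have hE : w t / (1 + y) + (σ + y) / (1 + y) = 1 := by
    rw [← add_div, div_eq_one_iff_eq (by linarith)]
    rw [hσ]; ring
  have hF : (σ + y) / (2 * σ + y) = σ / (2 * σ + y) + y / (2 * σ + y) := add_div _ _ _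
  linarith

/-- the condition on two colours -/
theorem star_ge (h : Hyp w y) {s : ℕ} (hs : Even s) {i k : Fin q} (hik : w i < w k) :
    (w k - y) * (w i - y) * l w y s ≤
      w k * ((w k - y) * ch w y (s + 1) k) + w i * ((w i - y) * ch w y (s + 1) i) := by
  have hy := h.hy
  have hL := l_pos h s
  have vk := h.lt k
  have vi := h.lt i
  have wk := h.pos k
  have wi := h.pos i
  have hne : i ≠ k := fun e => by rw [e] at hik; exact lt_irrefl _ hik
  obtain ⟨t, ht⟩ := exists_top' h
  rw [ch_succ, ch_succ]
  have e1 : w k * ch w y s k = N w y s k := rfl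
  have e2 : w i * ch w y s i = N w y s i := rfl
  rw [e1, e2]
  by_cases hkt : k = t
  · subst hkt
    obtain ⟨lam, hp⟩ := exists_perA h
    have h1 := T_lim_even h hp ht hs
    have h2 := lam_ge h hp ht
    have h3 : (lam + w k) * N w y s k ≤ w k * l w y s := by
      have := mul_le_mul_of_nonneg_right h1 hL.le
      rw [mul_assoc, tau_mul h] at this
      exact this
    have h4 : (1 + y) * N w y s k ≤ w k * l w y s :=
      (mul_le_mul_of_nonneg_right h2 (N_nn h s k)).trans h3
    have h5 : N w y s k + N w y s i ≤ l w y s := by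
      have := sum_le_sum_of_subset_of_nonneg (subset_univ ({k, i} : Finset (Fin q)))
        (f := fun i => N w y s i) (fun j _ _ => N_nn h s j)
      rw [sum_pair hne.symm] at this
      have h6 := l_eq w y s
      have h7 := m_nn h s
      linarith
    have h6 : w i ≤ 1 - w k := le_sigma h hne
    have h7 := top_half h ht
    -- replace `l - N i` by `N k`
    have h8 : w i * ((w i - y) * N w y s k) ≤ w i * ((w i - y) * (l w y s - N w y s i)) := by
      refine mul_le_mul_of_nonneg_left (mul_le_mul_of_nonneg_left ?_ (by linarith)) wi.le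
      linarith
    refine le_trans ?_ (add_le_add le_rfl h8)
    -- the coefficient of `N k`
    have h9 : 0 ≤ w k * (w k - y) - w i * (w i - y) := by
      have := mul_nonneg (sub_nonneg.2 hik.le) (show 0 ≤ w k + w i - y by linarith)
      nlinarith
    have h10 := mul_le_mul_of_nonneg_left h4 h9
    have h11 : (1 + y) * ((w k - y) * (w i - y)) ≤
        (1 + y) * (w k * (w k - y)) - (w k * (w k - y) - w i * (w i - y)) * w k := by
      have e : (1 + y) * (w k * (w k - y)) - (w k * (w k - y) - w i * (w i - y)) * w k -
          (1 + y) * ((w k - y) * (w i - y)) =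
          (1 - w k - w i) * ((w k - y) * (w k - w i + y)) +
          y * (w k * (w k - y) + w k * (w k - w i) + (w i - y) * (w i + y)) := by ring
      have h12 : 0 ≤ (1 - w k - w i) * ((w k - y) * (w k - w i + y)) :=
        mul_nonneg (by linarith) (mul_nonneg (by linarith) (by linarith))
      have h13 : 0 ≤ y * (w k * (w k - y) + w k * (w k - w i) + (w i - y) * (w i + y)) :=
        mul_nonneg hy.le (add_nonneg (add_nonneg (mul_nonneg wk.le (by linarith))
          (mul_nonneg wk.le (by linarith))) (mul_nonneg (by linarith) (by linarith)))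
      linarith
    have h14 := mul_le_mul_of_nonneg_right h11 hL.le
    have h15 : (1 + y) * ((w k - y) * (w i - y) * l w y s) ≤
        (1 + y) * (w k * ((w k - y) * (l w y s - N w y s k)) + w i * ((w i - y) * N w y s k)) := by
      nlinarith
    exact le_of_mul_le_mul_left h15 (by linarith)
  · have hkt' : w k ≤ w t := ht k
    have hit : i ≠ t := fun e => by rw [e] at hik; exact absurd hkt' (not_le.2 hik)
    have h1 : 2 * N w y s k ≤ l w y s := by
      have := mul_le_mul_of_nonneg_right (tau_half h s hkt hkt') hL.le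
      rw [mul_assoc, tau_mul h, one_mul] at this
      exact this
    have h2 : 2 * N w y s i ≤ l w y s := by
      have := mul_le_mul_of_nonneg_right (tau_half h s hit (ht i)) hL.le
      rw [mul_assoc, tau_mul h, one_mul] at this
      exact this
    have h3 : w k * ((w k - y) * (l w y s / 2)) ≤ w k * ((w k - y) * (l w y s - N w y s k)) :=
      mul_le_mul_of_nonneg_left (mul_le_mul_of_nonneg_left (by linarith) (by linarith)) wk.le
    have h4 : w i * ((w i - y) * (l w y s / 2)) ≤ w i * ((w i - y) * (l w y s - N w y s i)) :=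
      mul_le_mul_of_nonneg_left (mul_le_mul_of_nonneg_left (by linarith) (by linarith)) wi.le
    refine le_trans ?_ (add_le_add h3 h4)
    have h5 : 2 * ((w k - y) * (w i - y)) ≤ w k * (w k - y) + w i * (w i - y) := by
      nlinarith [sq_nonneg (w k - w i), mul_nonneg hy.le (sub_nonneg.2 vk.le),
        mul_nonneg hy.le (sub_nonneg.2 vi.le)]
    have h6 := mul_le_mul_of_nonneg_right h5 hL.le
    linarith

end Pool.Agent.Helper76.FU
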