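import Pool.Agent.Helper76.FU.Pair

/-!
S-world: the pair lemma, and the slope condition (R1).
-/

set_option autoImplicit false

namespace Pool.Agent.Helper76.FU

open Pool.Agent.Helper4.SW Pool.Agent.Helper31.SW
open Finset

variable {q : ℕ} {w : Fin q → ℝ} {y : ℝ}

/-- the third colour in the pair lemma -/
theorem pair_third (h : Hyp w y) {a s : ℕ} (hs : Even s) {i j k : Fin q} (hik : w i < w k)
    (hji : j ≠ i) (hjk : j ≠ k) :
    ch w y (s + 1) j * ((w i - y) * (w k - y) * C w y a i k) ≤
      w k * ((w k - y) * ch w y (s + 1) k) * C w y a j k +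
      w i * ((w i - y) * ch w y (s + 1) i) * C w y a j i +
      (w j - y) * ch w y (s + 1) j * (w k * C w y a j k + w i * C w y a j i) := by
  have hy := h.hy
  have vk := sub_pos.2 (h.lt k)
  have vi := sub_pos.2 (h.lt i)
  have vj := sub_pos.2 (h.lt j)
  have wk := h.pos k
  have wi := h.pos i
  have wj := h.pos j
  have hne : i ≠ k := fun e => by rw [e] at hik; exact lt_irrefl _ hik
  have ck := ch_nn h (s + 1) k
  have ci := ch_nn h (s + 1) i
  have cj := ch_nn h (s + 1) j
  have Cjk := C_nn h a j k
  have Cji := C_nn h a j i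
  have Cik := C_nn h a i k
  rcases le_total (w j) (w i) with hle | hle
  · -- a lighter colour
    have h1 := (C_cone h a hjk hne hle).1
    have h2 := (C_cone h a hji hne.symm (hle.trans hik.le)).1
    rw [C_comm a k i] at h2
    have h3 := star_ge h hs hik
    have h4 : ch w y (s + 1) j ≤ l w y s := by
      rw [ch_succ]
      have := mul_nonneg wj.le (ch_nn h s j)
      linarith
    have h5 : ch w y (s + 1) j * ((w i - y) * (w k - y)) ≤
        w k * ((w k - y) * ch w y (s + 1) k) + w i * ((w i - y) * ch w y (s + 1) i) := by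
      refine le_trans ?_ h3
      have := mul_le_mul_of_nonneg_right h4 (mul_nonneg vi.le vk.le)
      linarith
    have h6 := mul_le_mul_of_nonneg_right h5 Cik
    have h7 := mul_le_mul_of_nonneg_left h1 (mul_nonneg wk.le (mul_nonneg vk.le ck))
    have h8 := mul_le_mul_of_nonneg_left h2 (mul_nonneg wi.le (mul_nonneg vi.le ci))
    have h9 : 0 ≤ (w j - y) * ch w y (s + 1) j * (w k * C w y a j k + w i * C w y a j i) :=
      mul_nonneg (mul_nonneg vj.le cj) (add_nonneg (mul_nonneg wk.le Cjk) (mul_nonneg wi.le Cji))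
    linarith
  · -- a heavier colour
    have h1 := (C_cone h a hne hjk hle).2
    have h2 : (w i - y) * w j ≤ (w j - y) * w i := by
      have := mul_nonneg hy.le (sub_nonneg.2 hle)
      linarith
    have h3 : (w k - y) ≤ w k := by linarith
    -- multiply by `w j`
    have h4 : w j * (ch w y (s + 1) j * ((w i - y) * (w k - y) * C w y a i k)) ≤
        w j * ((w j - y) * ch w y (s + 1) j * (w k * C w y a j k)) := by
      have h5 : w j * ((w i - y) * (w k - y)) * C w y a i k ≤
          (w j - y) * w k * (w i * C w y a i k) := by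
        have h6 : w j * ((w i - y) * (w k - y)) ≤ (w j - y) * w i * w k := by
          calc w j * ((w i - y) * (w k - y)) = (w i - y) * w j * (w k - y) := by ring
            _ ≤ (w j - y) * w i * w k :=
              mul_le_mul h2 h3 vk.le (mul_nonneg vj.le wi.le)
        have := mul_le_mul_of_nonneg_right h6 Cik
        linarith
      have h6 := mul_le_mul_of_nonneg_left h1 (mul_nonneg vj.le wk.le)
      have h7 := mul_le_mul_of_nonneg_left (h5.trans h6) cj
      linarith
    have h5 := le_of_mul_le_mul_left h4 wj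
    have h6 : 0 ≤ w k * ((w k - y) * ch w y (s + 1) k) * C w y a j k :=
      mul_nonneg (mul_nonneg wk.le (mul_nonneg vk.le ck)) Cjk
    have h7 : 0 ≤ w i * ((w i - y) * ch w y (s + 1) i) * C w y a j i :=
      mul_nonneg (mul_nonneg wi.le (mul_nonneg vi.le ci)) Cji
    have h8 : 0 ≤ (w j - y) * ch w y (s + 1) j * (w i * C w y a j i) :=
      mul_nonneg (mul_nonneg vj.le cj) (mul_nonneg wi.le Cji)
    linarith

/-- the pair lemma -/
theorem pair_le (h : Hyp w y) {a s : ℕ} (hs : Even s) {i k : Fin q} (hik : w i < w k) :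
    l w y (s + 1) * ((w i - y) * (w k - y) * C w y a i k) ≤
      E w (fun j => (w j - y) * ch w y a j * ch w y (s + 1) j) := by
  have hy := h.hy
  have vk := sub_pos.2 (h.lt k)
  have vi := sub_pos.2 (h.lt i)
  have wk := h.pos k
  have wi := h.pos i
  have hne : i ≠ k := fun e => by rw [e] at hik; exact lt_irrefl _ hik
  have ck := ch_nn h (s + 1) k
  have ci := ch_nn h (s + 1) i
  have Cik := C_nn h a i k
  set S := (univ.erase k).erase i with hS
  have sp : ∀ f : Fin q → ℝ, ∑ j, f j = f k + (f i + ∑ j ∈ S, f j) := by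
    intro f
    rw [hS, add_sum_erase _ _ (mem_erase.2 ⟨hne, mem_univ i⟩), add_sum_erase _ _ (mem_univ k)]
  have hk : w i * C w y a i k + ∑ j ∈ S, w j * C w y a j k ≤ ch w y a k := by
    have h1 := C_diag h a k
    rw [← add_sum_erase _ _ (mem_erase.2 ⟨hne, mem_univ i⟩), ← hS, C_comm a k i] at h1
    refine le_trans (le_of_eq ?_) h1
    congr 1
    exact sum_congr rfl fun j _ => by rw [C_comm]
  have hi : w k * C w y a i k + ∑ j ∈ S, w j * C w y a j i ≤ ch w y a i := by
    have h1 := C_diag h a i
    rw [← add_sum_erase _ _ (mem_erase.2 ⟨hne.symm, mem_univ k⟩), erase_right_comm, ← hS] at h1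
    refine le_trans (le_of_eq ?_) h1
    congr 1
    exact sum_congr rfl fun j _ => by rw [C_comm]
  have hj : ∀ j ∈ S, w k * C w y a j k + w i * C w y a j i ≤ ch w y a j := by
    intro j hj
    rw [hS, mem_erase, mem_erase] at hj
    have := C_two h a (i := k) (j := i) (k := j) hne.symm hj.2.1.symm hj.1.symm
    rw [C_comm a k j, C_comm a i j] at this
    exact this
  -- lower bound of the right side
  have hE : w k * ((w k - y) * ch w y (s + 1) k) *
        (w i * C w y a i k + ∑ j ∈ S, w j * C w y a j k) +
      (w i * ((w i - y) * ch w y (s + 1) i) *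
        (w k * C w y a i k + ∑ j ∈ S, w j * C w y a j i) +
      ∑ j ∈ S, w j * ((w j - y) * ch w y (s + 1) j) *
        (w k * C w y a j k + w i * C w y a j i)) ≤
      E w (fun j => (w j - y) * ch w y a j * ch w y (s + 1) j) := by
    rw [E, sp]
    refine add_le_add ?_ (add_le_add ?_ (sum_le_sum fun j hj' => ?_))
    · have := mul_le_mul_of_nonneg_left hk (mul_nonneg wk.le (mul_nonneg vk.le ck))
      linarith
    · have := mul_le_mul_of_nonneg_left hi (mul_nonneg wi.le (mul_nonneg vi.le ci))
      linarith
    · have := mul_le_mul_of_nonneg_left (hj j hj') (mul_nonneg (h.nn j)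
        (mul_nonneg (sub_pos.2 (h.lt j)).le (ch_nn h (s + 1) j)))
      linarith
  refine le_trans ?_ hE
  -- the left side
  have hl : l w y (s + 1) = w k * ch w y (s + 1) k + (w i * ch w y (s + 1) i +
      ∑ j ∈ S, w j * ch w y (s + 1) j) + m w y (s + 1) := by
    rw [l_eq, sp]
    rfl
  have hm : m w y (s + 1) ≤ y * l w y s := by
    rw [m_succ]
    refine mul_le_mul_of_nonneg_left ?_ hy.le
    have := m_nn h s
    linarith
  have hsum : (∑ j ∈ S, w j * ch w y (s + 1) j) * ((w i - y) * (w k - y) * C w y a i k) ≤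
      w k * ((w k - y) * ch w y (s + 1) k) * (∑ j ∈ S, w j * C w y a j k) +
      w i * ((w i - y) * ch w y (s + 1) i) * (∑ j ∈ S, w j * C w y a j i) +
      ∑ j ∈ S, w j * ((w j - y) * ch w y (s + 1) j) *
        (w k * C w y a j k + w i * C w y a j i) := by
    rw [sum_mul, mul_sum, mul_sum, ← sum_add_distrib, ← sum_add_distrib]
    refine sum_le_sum fun j hj' => ?_
    rw [hS, mem_erase, mem_erase] at hj'
    have h1 := pair_third h (a := a) hs hik hj'.1 hj'.2.1
    have h2 := mul_le_mul_of_nonneg_left h1 (h.nn j)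
    linarith
  have hstar := star_ge h hs hik
  have h1 : m w y (s + 1) * ((w i - y) * (w k - y)) ≤
      y * (w k * ((w k - y) * ch w y (s + 1) k) + w i * ((w i - y) * ch w y (s + 1) i)) := by
    have h2 := mul_le_mul_of_nonneg_right hm (mul_nonneg vi.le vk.le)
    have h3 := mul_le_mul_of_nonneg_left hstar hy.le
    linarith
  have h2 := mul_le_mul_of_nonneg_right h1 Cik
  rw [hl]
  have h3 : (w k * ch w y (s + 1) k + (w i * ch w y (s + 1) i +
      ∑ j ∈ S, w j * ch w y (s + 1) j) + m w y (s + 1)) * ((w i - y) * (w k - y) * C w y a i k) =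
      (w k * ch w y (s + 1) k + w i * ch w y (s + 1) i) * ((w i - y) * (w k - y) * C w y a i k) +
      (∑ j ∈ S, w j * ch w y (s + 1) j) * ((w i - y) * (w k - y) * C w y a i k) +
      m w y (s + 1) * ((w i - y) * (w k - y)) * C w y a i k := by ring
  rw [h3]
  have h4 : (w k * ch w y (s + 1) k + w i * ch w y (s + 1) i) *
        ((w i - y) * (w k - y) * C w y a i k) +
      y * (w k * ((w k - y) * ch w y (s + 1) k) + w i * ((w i - y) * ch w y (s + 1) i)) *
        C w y a i k =
      w k * ((w k - y) * ch w y (s + 1) k) * (w i * C w y a i k) +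
      w i * ((w i - y) * ch w y (s + 1) i) * (w k * C w y a i k) := by ring
  linarith

end Pool.Agent.Helper76.FU
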