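import Mathlib

/-!
Polynomial inequalities for the pair condition.
-/

set_option autoImplicit false

namespace Pool.Agent.Helper76.FU

set_option maxRecDepth 100000 in
theorem polI1 {y z m σ x : ℝ} (hy : 0 ≤ y) (hz : y ≤ z) (hm : z ≤ m) (hs : z + m ≤ σ)
    (hx : σ + y ≤ x) :
    (z - y) * ((σ * (x + σ + x) + (x + σ) * y - z ^ 2 - m ^ 2) * (m * x ^ 2 * σ ^ 2 +
      2 * ((σ * (x + σ + x) + (x + σ) * y - z ^ 2 - m ^ 2) - x * σ) * (m - z) * (σ - z) * z)) ≤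
    4 * z * m * x * σ ^ 3 * (x - y) ^ 2 := by
  obtain ⟨p, rfl⟩ : ∃ p, z = y + p := ⟨z - y, by ring⟩
  obtain ⟨r, rfl⟩ : ∃ r, m = y + p + r := ⟨m - (y + p), by ring⟩
  obtain ⟨s, rfl⟩ : ∃ s, σ = y + p + (y + p + r) + s := ⟨σ - (y + p + (y + p + r)), by ring⟩
  obtain ⟨u, rfl⟩ : ∃ u, x = y + p + (y + p + r) + s + y + u :=
    ⟨x - (y + p + (y + p + r) + s + y), by ring⟩
  have hp : 0 ≤ p := by linarith
  have hr : 0 ≤ r := by linarith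
  have hs' : 0 ≤ s := by linarith
  have hu : 0 ≤ u := by linarith
  clear hz hm hs hx
  have h1 : 0 ≤ 6 * p ^ 3 * r * s ^ 2 * (r - s) ^ 2 := by positivity
  rw [← sub_nonneg]
  refine le_trans h1 ?_
  rw [← sub_nonneg]
  ring_nf
  positivity

set_option maxRecDepth 100000 in
theorem polI2 {y z m σ x : ℝ} (hy : 0 ≤ y) (hz : y ≤ z) (hm : z ≤ m) (hs : z + m ≤ σ)
    (hx : σ + y ≤ x) :
    (z - y) * (((σ * (x + σ + x) + (x + σ) * y - z ^ 2 - m ^ 2) - x * σ) * m * x ^ 2 * σ ^ 2 +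
      4 * z * (x + σ - z) * m * x ^ 2 * σ ^ 2 +
      2 * (σ * (x + σ + x) + (x + σ) * y - z ^ 2 - m ^ 2) *
        ((σ * (x + σ + x) + (x + σ) * y - z ^ 2 - m ^ 2) - x * σ) * (m - z) * (σ - z) * z) ≤
    4 * z * m * x * σ ^ 3 * (x - y) * (x - y + z) := by
  obtain ⟨p, rfl⟩ : ∃ p, z = y + p := ⟨z - y, by ring⟩
  obtain ⟨r, rfl⟩ : ∃ r, m = y + p + r := ⟨m - (y + p), by ring⟩
  obtain ⟨s, rfl⟩ : ∃ s, σ = y + p + (y + p + r) + s := ⟨σ - (y + p + (y + p + r)), by ring⟩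
  obtain ⟨u, rfl⟩ : ∃ u, x = y + p + (y + p + r) + s + y + u :=
    ⟨x - (y + p + (y + p + r) + s + y), by ring⟩
  have hp : 0 ≤ p := by linarith
  have hr : 0 ≤ r := by linarith
  have hs' : 0 ≤ s := by linarith
  have hu : 0 ≤ u := by linarith
  clear hz hm hs hx
  rw [← sub_nonneg]
  ring_nf
  positivity

/-- the second largest colour -/
theorem polJ1 {y z σ x : ℝ} (hy : 0 ≤ y) (hz : y ≤ z) (hs : z ≤ σ) (hx : σ + y ≤ x) :
    (z - y) * (σ * (x + σ + x) + (x + σ) * y - z ^ 2) * x ^ 2 ≤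
    4 * z * x * σ * (x - y) ^ 2 := by
  obtain ⟨p, rfl⟩ : ∃ p, z = y + p := ⟨z - y, by ring⟩
  obtain ⟨s, rfl⟩ : ∃ s, σ = y + p + s := ⟨σ - (y + p), by ring⟩
  obtain ⟨u, rfl⟩ : ∃ u, x = y + p + s + y + u := ⟨x - (y + p + s + y), by ring⟩
  have hp : 0 ≤ p := by linarith
  have hs' : 0 ≤ s := by linarith
  have hu : 0 ≤ u := by linarith
  clear hz hs hx
  rw [← sub_nonneg]
  ring_nf
  positivity

theorem polJ2a {y z σ x : ℝ} (hy : 0 ≤ y) (hz : y ≤ z) (hs : 2 * z ≤ σ) (hx : σ + y ≤ x) :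
    (z - y) * ((σ * (x + σ + x) + (x + σ) * y - z ^ 2 - x * σ) * x ^ 2 +
      4 * z * (x + σ - z) * x ^ 2) ≤
    4 * z * x * σ * (x - y) * (x - y + z) := by
  obtain ⟨p, rfl⟩ : ∃ p, z = y + p := ⟨z - y, by ring⟩
  obtain ⟨s, rfl⟩ : ∃ s, σ = 2 * (y + p) + s := ⟨σ - 2 * (y + p), by ring⟩
  obtain ⟨u, rfl⟩ : ∃ u, x = 2 * (y + p) + s + y + u := ⟨x - (2 * (y + p) + s + y), by ring⟩
  have hp : 0 ≤ p := by linarith
  have hs' : 0 ≤ s := by linarith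
  have hu : 0 ≤ u := by linarith
  clear hz hs hx
  rw [← sub_nonneg]
  ring_nf
  positivity

theorem polJ2b {y z σ x : ℝ} (hy : 0 ≤ y) (hz : y ≤ z) (hs1 : z ≤ σ) (hs2 : σ ≤ 2 * z)
    (hx : σ + y ≤ x) :
    (z - y) * (σ * (x + σ + x) + (x + σ) * y - z ^ 2) ^ 2 * x ≤
    4 * z * σ * (σ * (x + σ + x) + (x + σ) * y - z ^ 2 - x * σ) * (x - y) * (x - y + z) := by
  obtain ⟨s, rfl⟩ : ∃ s, σ = z + s := ⟨σ - z, by ring⟩
  obtain ⟨u, rfl⟩ : ∃ u, x = z + s + y + u := ⟨x - (z + s + y), by ring⟩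
  have hs' : 0 ≤ s := by linarith
  have hu : 0 ≤ u := by linarith
  rcases le_total y s with hys | hys
  · obtain ⟨v, rfl⟩ : ∃ v, s = y + v := ⟨s - y, by ring⟩
    obtain ⟨p, rfl⟩ : ∃ p, z = y + v + p := ⟨z - (y + v), by ring⟩
    have hv : 0 ≤ v := by linarith
    have hp : 0 ≤ p := by linarith
    clear hz hs1 hs2 hx hys hs'
    rw [← sub_nonneg]
    ring_nf
    positivity
  · obtain ⟨v, rfl⟩ : ∃ v, y = s + v := ⟨y - s, by ring⟩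
    obtain ⟨p, rfl⟩ : ∃ p, z = s + v + p := ⟨z - (s + v), by ring⟩
    have hv : 0 ≤ v := by linarith
    have hp : 0 ≤ p := by linarith
    clear hz hs1 hs2 hx hys hy
    rw [← sub_nonneg]
    ring_nf
    positivity

end Pool.Agent.Helper76.FU
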