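import Pool.Agent.Helper76.FU.Pol

/-!
The real inequalities for the pair condition.
-/

set_option autoImplicit false

namespace Pool.Agent.Helper76.FU

section

variable {y z m σ x l G H : ℝ}

/-- common bound for the second term -/
theorem GW_le (hy : 0 < y) (hz : y < z) (hm : z ≤ m) (hs : z ≤ σ) (hx : σ + y ≤ x)
    (hl0 : x * σ ≤ l) (hG : G * (x * σ) ≤ z * (1 - z)) :
    G * ((σ - z) * ((l - x * σ) / (x * σ)) * (1 - z / m) / 2) ≤
      (1 - z) * (z * (σ - z) * (l - x * σ) * (m - z) / (2 * m * (x * σ) ^ 2)) := by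
  have z0 : 0 < z := hy.trans hz
  have m0 : 0 < m := z0.trans_le hm
  have s0 : 0 < σ := z0.trans_le hs
  have x0 : 0 < x := by linarith
  have P0 : 0 < x * σ := mul_pos x0 s0
  have e1 : G * ((σ - z) * ((l - x * σ) / (x * σ)) * (1 - z / m) / 2) =
      (G * (x * σ)) * ((σ - z) * (l - x * σ) * (m - z)) / (2 * m * (x * σ) ^ 2) := by
    field_simp
  have e2 : (1 - z) * (z * (σ - z) * (l - x * σ) * (m - z) / (2 * m * (x * σ) ^ 2)) =
      (z * (1 - z)) * ((σ - z) * (l - x * σ) * (m - z)) / (2 * m * (x * σ) ^ 2) := by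
    ring
  rw [e1, e2]
  refine div_le_div_of_nonneg_right ?_ (by positivity)
  exact mul_le_mul_of_nonneg_right hG (mul_nonneg (mul_nonneg (by linarith) (by linarith))
    (by linarith))

theorem A1 (hy : 0 < y) (hz : y < z) (hm : z ≤ m) (hs : z + m ≤ σ) (hx : σ + y ≤ x)
    (h1 : x + σ = 1) (hl0 : x * σ ≤ l) (hl : l ≤ σ * (1 + x) + y - z ^ 2 - m ^ 2)
    (hG0 : 0 ≤ G) (hGH : G ≤ H) (hH : H * (x * σ) ≤ z * (1 - z)) :
    (z - y) / z * G * ((1 - z) * (1 - H) +
      (σ - z) * ((l - x * σ) / (x * σ)) * (1 - z / m) / 2) * l ≤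
    x * σ * (1 - z) * ((x - y) / x) ^ 2 := by
  have z0 : 0 < z := hy.trans hz
  have m0 : 0 < m := z0.trans_le hm
  have s0 : 0 < σ := by linarith
  have x0 : 0 < x := by linarith
  have P0 : 0 < x * σ := mul_pos x0 s0
  have l0 : 0 < l := P0.trans_le hl0
  have z1 : 0 ≤ 1 - z := by linarith
  have hG : G * (x * σ) ≤ z * (1 - z) := (mul_le_mul_of_nonneg_right hGH P0.le).trans hH
  have hGW := GW_le hy hz hm (by linarith) hx hl0 hG
  set W := (σ - z) * ((l - x * σ) / (x * σ)) * (1 - z / m) / 2 with hW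
  set K := z * (σ - z) * (l - x * σ) * (m - z) / (2 * m * (x * σ) ^ 2) with hK
  have hvi : 0 ≤ (z - y) / z := div_nonneg (by linarith) z0.le
  have s1 : G * (1 - H) ≤ 1 / 4 := by
    have := mul_le_mul_of_nonneg_left hGH hG0
    nlinarith [sq_nonneg (2 * G - 1)]
  have hS : x + σ + x = 1 + x := by linarith
  have hp := polI1 hy.le hz.le hm hs hx
  rw [hS, h1, one_mul] at hp
  set T := σ * (1 + x) + y - z ^ 2 - m ^ 2 with hT
  have s3 : (z - y) / z * l * (1 / 4 + K) ≤ x * σ * ((x - y) / x) ^ 2 := by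
    have hc : 0 < 4 * z * m * (x * σ) ^ 2 := by positivity
    refine le_of_mul_le_mul_left ?_ hc
    have e1 : 4 * z * m * (x * σ) ^ 2 * ((z - y) / z * l * (1 / 4 + K)) =
        (z - y) * (l * (m * x ^ 2 * σ ^ 2 + 2 * (l - x * σ) * (m - z) * (σ - z) * z)) := by
      rw [hK]; field_simp; ring
    have e2 : 4 * z * m * (x * σ) ^ 2 * (x * σ * ((x - y) / x) ^ 2) =
        4 * z * m * x * σ ^ 3 * (x - y) ^ 2 := by
      field_simp
    rw [e1, e2]
    refine le_trans ?_ hp
    refine mul_le_mul_of_nonneg_left ?_ (by linarith)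
    have c1 : 0 ≤ 2 * (l - x * σ) * (m - z) * (σ - z) * z :=
      mul_nonneg (mul_nonneg (mul_nonneg (by linarith) (by linarith)) (by linarith)) z0.le
    have c2 : 2 * (l - x * σ) * (m - z) * (σ - z) * z ≤
        2 * (T - x * σ) * (m - z) * (σ - z) * z := by
      refine mul_le_mul_of_nonneg_right (mul_le_mul_of_nonneg_right (mul_le_mul_of_nonneg_right
        (by linarith) (by linarith)) (by linarith)) z0.le
    have c3 : 0 ≤ m * x ^ 2 * σ ^ 2 := by positivity
    exact mul_le_mul hl (by linarith) (by linarith) (l0.le.trans hl)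
  have e3 : (z - y) / z * G * ((1 - z) * (1 - H) + W) * l =
      (z - y) / z * l * ((1 - z) * (G * (1 - H)) + G * W) := by ring
  rw [e3]
  have s4 : (1 - z) * (G * (1 - H)) + G * W ≤ (1 - z) * (1 / 4 + K) := by
    have := mul_le_mul_of_nonneg_left s1 z1
    linarith
  have s5 := mul_le_mul_of_nonneg_left s4 (mul_nonneg hvi l0.le)
  have s6 := mul_le_mul_of_nonneg_left s3 z1
  linarith

theorem A2 (hy : 0 < y) (hz : y < z) (hm : z ≤ m) (hs : z + m ≤ σ) (hx : σ + y ≤ x)
    (h1 : x + σ = 1) (hl0 : x * σ ≤ l) (hl : l ≤ σ * (1 + x) + y - z ^ 2 - m ^ 2)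
    (hG0 : 0 ≤ G) (hGH : G ≤ H) (hH : H * (x * σ) ≤ z * (1 - z)) :
    (z - y) / z * G * ((1 - z) * (1 - H) +
      (σ - z) * ((l - x * σ) / (x * σ)) * (1 - z / m) / 2) * l ≤
    x * σ * (1 - z) * (((x - y) / x) ^ 2 + z / x * ((x - y) / x) - (z - y) / z * G * H) := by
  have z0 : 0 < z := hy.trans hz
  have m0 : 0 < m := z0.trans_le hm
  have s0 : 0 < σ := by linarith
  have x0 : 0 < x := by linarith
  have P0 : 0 < x * σ := mul_pos x0 s0
  have l0 : 0 < l := P0.trans_le hl0
  have z1 : 0 ≤ 1 - z := by linarith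
  have hG : G * (x * σ) ≤ z * (1 - z) := (mul_le_mul_of_nonneg_right hGH P0.le).trans hH
  have hGW := GW_le hy hz hm (by linarith) hx hl0 hG
  set W := (σ - z) * ((l - x * σ) / (x * σ)) * (1 - z / m) / 2 with hW
  set K := z * (σ - z) * (l - x * σ) * (m - z) / (2 * m * (x * σ) ^ 2) with hK
  have hvi : 0 ≤ (z - y) / z := div_nonneg (by linarith) z0.le
  have s1 : G * l - (l - x * σ) * (G * H) ≤ z * (1 - z) + (l - x * σ) / 4 := by
    have a1 : G * G ≤ G * H := mul_le_mul_of_nonneg_left hGH hG0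
    have a2 := mul_le_mul_of_nonneg_left a1 (sub_nonneg.2 hl0)
    have a3 := mul_nonneg (sub_nonneg.2 hl0) (sq_nonneg (2 * G - 1))
    nlinarith
  have hS : x + σ + x = 1 + x := by linarith
  have hp := polI2 hy.le hz.le hm hs hx
  rw [hS, h1, one_mul] at hp
  set T := σ * (1 + x) + y - z ^ 2 - m ^ 2 with hT
  have s3 : (z - y) / z * (z * (1 - z) + (l - x * σ) / 4 + l * K) ≤
      x * σ * (((x - y) / x) ^ 2 + z / x * ((x - y) / x)) := by
    have hc : 0 < 4 * z * m * (x * σ) ^ 2 := by positivity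
    refine le_of_mul_le_mul_left ?_ hc
    have e1 : 4 * z * m * (x * σ) ^ 2 * ((z - y) / z * (z * (1 - z) + (l - x * σ) / 4 + l * K)) =
        (z - y) * ((l - x * σ) * m * x ^ 2 * σ ^ 2 + 4 * z * (1 - z) * m * x ^ 2 * σ ^ 2 +
          2 * l * (l - x * σ) * (m - z) * (σ - z) * z) := by
      rw [hK]; field_simp; ring
    have e2 : 4 * z * m * (x * σ) ^ 2 * (x * σ * (((x - y) / x) ^ 2 + z / x * ((x - y) / x))) =
        4 * z * m * x * σ ^ 3 * (x - y) * (x - y + z) := by
      field_simp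
    rw [e1, e2]
    refine le_trans ?_ hp
    refine mul_le_mul_of_nonneg_left ?_ (by linarith)
    have c0 : 0 ≤ l - x * σ := by linarith
    have c1 : (l - x * σ) * m * x ^ 2 * σ ^ 2 ≤ (T - x * σ) * m * x ^ 2 * σ ^ 2 := by
      refine mul_le_mul_of_nonneg_right (mul_le_mul_of_nonneg_right (mul_le_mul_of_nonneg_right
        (by linarith) m0.le) (by positivity)) (by positivity)
    have c2 : 2 * l * (l - x * σ) ≤ 2 * T * (T - x * σ) :=
      mul_le_mul (by linarith) (by linarith) c0 (by linarith)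
    have c3 := mul_le_mul_of_nonneg_right (mul_le_mul_of_nonneg_right
      (mul_le_mul_of_nonneg_right c2 (show 0 ≤ m - z by linarith)) (show 0 ≤ σ - z by linarith))
      z0.le
    linarith
  have e3 : (z - y) / z * G * ((1 - z) * (1 - H) + W) * l +
      x * σ * (1 - z) * ((z - y) / z * G * H) =
      (z - y) / z * ((1 - z) * (G * l - (l - x * σ) * (G * H)) + l * (G * W)) := by ring
  have s4 : (1 - z) * (G * l - (l - x * σ) * (G * H)) + l * (G * W) ≤
      (1 - z) * (z * (1 - z) + (l - x * σ) / 4 + l * K) := by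
    have a1 := mul_le_mul_of_nonneg_left s1 z1
    have a2 := mul_le_mul_of_nonneg_left hGW l0.le
    linarith
  have s5 := mul_le_mul_of_nonneg_left s4 hvi
  have s6 := mul_le_mul_of_nonneg_left s3 z1
  linarith

theorem B1 (hy : 0 < y) (hz : y < z) (hs : z ≤ σ) (hx : σ + y ≤ x)
    (h1 : x + σ = 1) (hl0 : 2 * (x * σ) ≤ l) (hl : l ≤ σ * (1 + x) + y - z ^ 2)
    (hG0 : 0 ≤ G) (hGH : G ≤ H) :
    (z - y) / z * G * ((1 - z) * (1 - H)) * l ≤ x * σ * (1 - z) * ((x - y) / x) ^ 2 := by
  have z0 : 0 < z := hy.trans hz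
  have s0 : 0 < σ := by linarith
  have x0 : 0 < x := by linarith
  have P0 : 0 < x * σ := mul_pos x0 s0
  have l0 : 0 < l := by linarith
  have z1 : 0 ≤ 1 - z := by linarith
  have hvi : 0 ≤ (z - y) / z := div_nonneg (by linarith) z0.le
  have s1 : G * (1 - H) ≤ 1 / 4 := by
    have := mul_le_mul_of_nonneg_left hGH hG0
    nlinarith [sq_nonneg (2 * G - 1)]
  have hS : x + σ + x = 1 + x := by linarith
  have hp := polJ1 hy.le hz.le hs hx
  rw [hS, h1, one_mul] at hp
  have s3 : (z - y) / z * l * (1 / 4) ≤ x * σ * ((x - y) / x) ^ 2 := by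
    have hc : 0 < 4 * z * x ^ 2 := by positivity
    refine le_of_mul_le_mul_left ?_ hc
    have e1 : 4 * z * x ^ 2 * ((z - y) / z * l * (1 / 4)) = (z - y) * l * x ^ 2 := by
      field_simp
    have e2 : 4 * z * x ^ 2 * (x * σ * ((x - y) / x) ^ 2) = 4 * z * x * σ * (x - y) ^ 2 := by
      field_simp
    rw [e1, e2]
    refine le_trans ?_ hp
    exact mul_le_mul_of_nonneg_right (mul_le_mul_of_nonneg_left hl (by linarith))
      (by positivity)
  have e3 : (z - y) / z * G * ((1 - z) * (1 - H)) * l =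
      (z - y) / z * l * (1 - z) * (G * (1 - H)) := by ring
  rw [e3]
  have s5 := mul_le_mul_of_nonneg_left s1 (mul_nonneg (mul_nonneg hvi l0.le) z1)
  have s6 := mul_le_mul_of_nonneg_left s3 z1
  linarith

theorem B2 (hy : 0 < y) (hz : y < z) (hs : z ≤ σ) (hx : σ + y ≤ x)
    (h1 : x + σ = 1) (hl0 : 2 * (x * σ) ≤ l) (hl : l ≤ σ * (1 + x) + y - z ^ 2)
    (hG0 : 0 ≤ G) (hGH : G ≤ H) (hH : H * (x * σ) ≤ z * (1 - z)) :
    (z - y) / z * G * ((1 - z) * (1 - H)) * l ≤
    x * σ * (1 - z) * (((x - y) / x) ^ 2 + z / x * ((x - y) / x) - (z - y) / z * G * H) := by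
  have z0 : 0 < z := hy.trans hz
  have s0 : 0 < σ := by linarith
  have x0 : 0 < x := by linarith
  have P0 : 0 < x * σ := mul_pos x0 s0
  have l0 : 0 < l := by linarith
  have z1 : 0 ≤ 1 - z := by linarith
  have hvi : 0 ≤ (z - y) / z := div_nonneg (by linarith) z0.le
  have hlP : 0 < l - x * σ := by linarith
  have hG : G * (x * σ) ≤ z * (1 - z) := (mul_le_mul_of_nonneg_right hGH P0.le).trans hH
  have hS : x + σ + x = 1 + x := by linarith
  have a1 : G * G ≤ G * H := mul_le_mul_of_nonneg_left hGH hG0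
  have a2 := mul_le_mul_of_nonneg_left a1 hlP.le
  set T := σ * (1 + x) + y - z ^ 2 with hT
  have key : (z - y) / z * (G * l - (l - x * σ) * (G * H)) ≤
      x * σ * (((x - y) / x) ^ 2 + z / x * ((x - y) / x)) := by
    rcases le_total (2 * z) σ with h2 | h2
    · have s1 : G * l - (l - x * σ) * (G * H) ≤ z * (1 - z) + (l - x * σ) / 4 := by
        have a3 := mul_nonneg hlP.le (sq_nonneg (2 * G - 1))
        nlinarith
      have hp := polJ2a hy.le hz.le h2 hx
      rw [hS, h1, one_mul] at hp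
      refine (mul_le_mul_of_nonneg_left s1 hvi).trans ?_
      have hc : 0 < 4 * z * x ^ 2 := by positivity
      refine le_of_mul_le_mul_left ?_ hc
      have e1 : 4 * z * x ^ 2 * ((z - y) / z * (z * (1 - z) + (l - x * σ) / 4)) =
          (z - y) * ((l - x * σ) * x ^ 2 + 4 * z * (1 - z) * x ^ 2) := by
        field_simp; ring
      have e2 : 4 * z * x ^ 2 * (x * σ * (((x - y) / x) ^ 2 + z / x * ((x - y) / x))) =
          4 * z * x * σ * (x - y) * (x - y + z) := by
        field_simp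
      rw [e1, e2]
      refine le_trans ?_ hp
      refine mul_le_mul_of_nonneg_left ?_ (by linarith)
      have : (l - x * σ) * x ^ 2 ≤ (T - x * σ) * x ^ 2 :=
        mul_le_mul_of_nonneg_right (by linarith) (by positivity)
      linarith
    · have hp := polJ2b hy.le hz.le hs h2 hx
      rw [hS, h1, one_mul] at hp
      have hTP : 0 < T - x * σ := by linarith
      have s1 : 4 * (l - x * σ) * (G * l - (l - x * σ) * (G * H)) ≤ l ^ 2 := by
        have a3 : G * l - (l - x * σ) * (G * H) ≤ G * l - (l - x * σ) * (G * G) := by linarith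
        have a4 := mul_le_mul_of_nonneg_left a3 (show 0 ≤ 4 * (l - x * σ) by linarith)
        nlinarith [sq_nonneg (l - 2 * (l - x * σ) * G)]
      have s2 : l ^ 2 * (T - x * σ) ≤ T ^ 2 * (l - x * σ) := by
        have b1 : 0 ≤ T - l := by linarith
        have b2 : 0 ≤ l * T - x * σ * (T + l) := by
          have b3 : 0 ≤ (l - 2 * (x * σ)) * T := mul_nonneg (by linarith) (by linarith)
          have b4 : 0 ≤ (T - 2 * (x * σ)) * l := mul_nonneg (by linarith) l0.le
          linarith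
        have := mul_nonneg b1 b2
        nlinarith
      have s3 : 4 * (T - x * σ) * (G * l - (l - x * σ) * (G * H)) ≤ T ^ 2 := by
        have b1 := mul_le_mul_of_nonneg_right s1 hTP.le
        have b2 : (l - x * σ) * (4 * (T - x * σ) * (G * l - (l - x * σ) * (G * H))) ≤
            (l - x * σ) * T ^ 2 := by
          calc _ = 4 * (l - x * σ) * (G * l - (l - x * σ) * (G * H)) * (T - x * σ) := by ring
            _ ≤ l ^ 2 * (T - x * σ) := b1
            _ ≤ T ^ 2 * (l - x * σ) := s2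
            _ = _ := by ring
        exact le_of_mul_le_mul_left b2 hlP
      have hc : 0 < 4 * z * (T - x * σ) * x := by positivity
      refine le_of_mul_le_mul_left ?_ hc
      have e1 : 4 * z * (T - x * σ) * x * ((z - y) / z * (G * l - (l - x * σ) * (G * H))) =
          (z - y) * (4 * (T - x * σ) * (G * l - (l - x * σ) * (G * H))) * x := by
        field_simp
      have e2 : 4 * z * (T - x * σ) * x * (x * σ * (((x - y) / x) ^ 2 + z / x * ((x - y) / x))) =
          4 * z * σ * (T - x * σ) * (x - y) * (x - y + z) := by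
        field_simp
      rw [e1, e2]
      refine le_trans ?_ hp
      exact mul_le_mul_of_nonneg_right (mul_le_mul_of_nonneg_left s3 (by linarith)) x0.le
  have s6 := mul_le_mul_of_nonneg_left key z1
  have e3 : (z - y) / z * G * ((1 - z) * (1 - H)) * l +
      x * σ * (1 - z) * ((z - y) / z * G * H) =
      (1 - z) * ((z - y) / z * (G * l - (l - x * σ) * (G * H))) := by ring
  linarith

end

end Pool.Agent.Helper76.FU
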