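import Pool.Agent.Helper76.FU.Pair2

/-!
S-world: the slope condition (R1) and the condition (r).
-/

set_option autoImplicit false

namespace Pool.Agent.Helper76.FU

open Pool.Agent.Helper4.SW Pool.Agent.Helper31.SW
open Finset

variable {q : ℕ} {w : Fin q → ℝ} {y : ℝ}

/-- Chebyshev, cross form -/
theorem cheb (hw : ∀ i, 0 ≤ w i) (hinj : Function.Injective w) {φ κ D : Fin q → ℝ}
    (hp : ∀ i j, w i < w j → φ j ≤ φ i ∧ κ j * D i ≤ κ i * D j) :
    E w κ * E w (fun i => φ i * D i) ≤ E w (fun i => φ i * κ i) * E w D := by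
  have h0 : 0 ≤ ∑ i, ∑ j, w i * w j * ((φ i - φ j) * (κ i * D j - κ j * D i)) := by
    refine sum_nonneg fun i _ => sum_nonneg fun j _ => mul_nonneg (mul_nonneg (hw i) (hw j)) ?_
    rcases lt_trichotomy (w i) (w j) with hij | hij | hij
    · obtain ⟨h1, h2⟩ := hp i j hij
      exact mul_nonneg (sub_nonneg.2 h1) (sub_nonneg.2 h2)
    · rw [hinj hij]; simp
    · obtain ⟨h1, h2⟩ := hp j i hij
      have := mul_nonneg (sub_nonneg.2 h1) (sub_nonneg.2 h2)
      linarith
  have h1 : ∀ i j, w i * w j * ((φ i - φ j) * (κ i * D j - κ j * D i)) =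
      (w i * (φ i * κ i)) * (w j * D j) - (w i * (φ i * D i)) * (w j * κ j) -
      (w i * κ i) * (w j * (φ j * D j)) + (w i * D i) * (w j * (φ j * κ j)) := by
    intro i j; ring
  simp only [h1, sum_add_distrib, sum_sub_distrib, ← mul_sum, ← sum_mul] at h0
  simp only [E]
  linarith

/-- the pairwise slope condition -/
theorem slope_pair (h : Hyp w y) {a s : ℕ} (hs : Even s) (n : ℕ) {i k : Fin q} (hik : w i < w k)
    {e : ℝ} (he : e = E w (fun j => (w j - y) * ch w y a j * ch w y (s + 1) j)) :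
    (e - l w y (s + 1) * ((w k - y) * ch w y a k) + (w k - y) * ch w y n k) *
        ((w i - y) * ch w y n i) ≤
      (e - l w y (s + 1) * ((w i - y) * ch w y a i) + (w i - y) * ch w y n i) *
        ((w k - y) * ch w y n k) := by
  have hy := h.hy
  have vk := sub_pos.2 (h.lt k)
  have vi := sub_pos.2 (h.lt i)
  have hne : i ≠ k := fun e => by rw [e] at hik; exact lt_irrefl _ hik
  have hd : 0 < w k - w i := sub_pos.2 hik
  have e0 : 0 ≤ e := by
    rw [he]
    exact E_nonneg h.nn fun j => mul_nonneg (mul_nonneg (sub_pos.2 (h.lt j)).le (ch_nn h a j))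
      (ch_nn h (s + 1) j)
  have hp := pair_le h (a := a) hs hik
  rw [← he] at hp
  have hC := C_mul h a hne
  have h1 : l w y (s + 1) * ((w i - y) * (w k - y) * (ch w y a i - ch w y a k)) ≤
      e * (w k - w i) := by
    rw [← hC]
    have := mul_le_mul_of_nonneg_right hp hd.le
    linarith
  set r := C w y n i k with hr
  have r0 : 0 ≤ r := C_nn h n i k
  have hN : r * (w k - w i) = ch w y n i - ch w y n k := C_mul h n hne
  have hmono := ch_mono h n hik.le
  set p := ch w y n k - r * w i with hpdef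
  have p0 : 0 ≤ p := by
    have h2 : 0 ≤ p * (w k - w i) := by
      have : p * (w k - w i) = w k * ch w y n k - w i * ch w y n i := by
        rw [hpdef]
        linear_combination (-w i) * hN
      rw [this]
      exact sub_nonneg.2 hmono
    exact nonneg_of_mul_nonneg_left h2 hd
  have ek : ch w y n k = p + r * w i := by rw [hpdef]; ring
  have ei : ch w y n i = p + r * w k := by
    have : ch w y n i = ch w y n k + r * (w k - w i) := by rw [hN]; ring
    rw [this, ek]; ring
  rw [ek, ei]
  have h2 : 0 ≤ p * (e * (w k - w i) - l w y (s + 1) * ((w i - y) * (w k - y) *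
      (ch w y a i - ch w y a k))) := mul_nonneg p0 (sub_nonneg.2 h1)
  have h3 : 0 ≤ r * (e * (y * (w k - w i))) :=
    mul_nonneg r0 (mul_nonneg e0 (mul_nonneg hy.le hd.le))
  have h4 : 0 ≤ r * (l w y (s + 1) * ((w i - y) * (w k - y) *
      (w k * ch w y a k - w i * ch w y a i))) :=
    mul_nonneg r0 (mul_nonneg (l_pos h _).le (mul_nonneg (mul_nonneg vi.le vk.le)
      (sub_nonneg.2 (ch_mono h a hik.le))))
  linarith

/-- (r): `l_{a+1} l_{s+1} ≤ l_{a+s+1}` -/
theorem l_super (h : Hyp w y) (a s : ℕ) :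
    l w y (a + 1) * l w y (s + 1) ≤ l w y (a + (s + 1)) := by
  have h1 := (merge_id w y s 1).2
  have h2 := (merge_id w y s (a + 1)).2
  have l1 : l w y 1 = 1 := by rw [l_succ, psi_zero, L_def, hat_one, E_one h]
  rw [l1, mul_one] at h1
  have e1 : (fun k => (w k - y) * ch w y s k * ch w y 1 k) = fun k => (w k - y) * ch w y s k := by
    funext k; rw [ch_one]; ring
  rw [e1] at h1
  -- Chebyshev
  have h3 := cheb h.nn h.inj (φ := ch w y (a + 1)) (κ := fun _ => (1 : ℝ))
    (D := fun k => (w k - y) * ch w y s k) (fun i j hij => by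
      refine ⟨ch_anti h _ hij.le, ?_⟩
      rw [one_mul, one_mul]
      exact (Cone.ch h.nn h.hy.le s).sub_mono h.hy.le i j hij.le)
  rw [E_one h, one_mul] at h3
  have e2 : E w (fun i => ch w y (a + 1) i * 1) ≤ l w y (a + 1) := by
    have h4 := l_eq w y (a + 1)
    have h5 := m_nn h (a + 1)
    have h6 : E w (fun i => ch w y (a + 1) i * 1) = ∑ i, N w y (a + 1) i := by
      simp only [mul_one]; rfl
    linarith
  have h4 : 0 ≤ E w (fun k => (w k - y) * ch w y s k) :=
    E_nonneg h.nn fun k => mul_nonneg (sub_pos.2 (h.lt k)).le (ch_nn h s k)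
  have h5 := h3.trans (mul_le_mul_of_nonneg_right e2 h4)
  have e3 : (fun i => ch w y (a + 1) i * ((w i - y) * ch w y s i)) =
      fun k => (w k - y) * ch w y s k * ch w y (a + 1) k := by
    funext k; ring
  rw [e3] at h5
  have e4 : s + (a + 1) = a + (s + 1) := by ring
  rw [e4] at h2
  have e5 : l w y s = l w y (s + 1) + E w (fun k => (w k - y) * ch w y s k) := h1
  rw [e5] at h2
  nlinarith

end Pool.Agent.Helper76.FU
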