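import Pool.Agent.Helper76.FU.Slope

/-!
S-world: the star formula for polynomials in `K'`.
-/

set_option autoImplicit false

namespace Pool.Agent.Helper76.FU

open Pool.Agent.Helper4.SW Pool.Agent.Helper31.SW
open Finset Polynomial

variable {q : ℕ} {w : Fin q → ℝ} {y : ℝ}

theorem E_split (i : Fin q) (f : Fin q → ℝ) :
    E w f = w i * f i + ∑ d ∈ univ.erase i, w d * f d :=
  (add_sum_erase univ (fun d => w d * f d) (mem_univ i)).symm

/-- the star formula -/
theorem star_formula (hinj : Function.Injective w) (p : ℝ[X]) (f : Fin q → ℝ) (i : Fin q) :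
    aeval (K' w) p f i = hat w p i * f i +
      ∑ d ∈ univ.erase i, w d * ((hat w p i - hat w p d) / (w d - w i) * (f d - f i)) := by
  induction p using Polynomial.induction_on generalizing i with
  | C a =>
    rw [hat_C, aeval_C]
    simp [Module.algebraMap_end_apply]
  | add p r hp hr =>
    rw [map_add, LinearMap.add_apply, Pi.add_apply, hp, hr, map_add, Pi.add_apply]
    have e : ∀ d, w d * ((hat w p i + hat w r i - (hat w p + hat w r) d) / (w d - w i) *
        (f d - f i)) = w d * ((hat w p i - hat w p d) / (w d - w i) * (f d - f i)) +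
        w d * ((hat w r i - hat w r d) / (w d - w i) * (f d - f i)) := by
      intro d
      rw [Pi.add_apply]
      ring
    simp only [e, sum_add_distrib]
    ring
  | monomial n a ih =>
    have e1 : (Polynomial.C a * X ^ (n + 1) : ℝ[X]) = X * (Polynomial.C a * X ^ n) := by rw [pow_succ]; ring
    rw [e1]
    set p : ℝ[X] := Polynomial.C a * X ^ n with hp
    have e2 : aeval (K' w) (X * p) f = K' w (aeval (K' w) p f) := by
      rw [map_mul, aeval_X]; rfl
    rw [e2, hat_X_mul, K'_apply, K'_apply, ih i]
    have e3 : E w (aeval (K' w) p f) = E w (fun d => hat w p d * f d) := by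
      have h1 := E_aeval_mul w p f (fun _ => 1)
      simp only [mul_one] at h1
      rw [show (fun i => aeval (K' w) p f i) = aeval (K' w) p f from rfl] at h1
      rw [h1]
      congr 1
      funext d
      rw [← hat_def]
      ring
    rw [e3, E_split i (fun d => hat w p d * f d), E_split i (hat w p)]
    have e4 : ∀ d ∈ univ.erase i, w d * ((w i * hat w p i + ∑ d ∈ univ.erase i, w d * hat w p d -
        w i * hat w p i - K' w (hat w p) d) / (w d - w i) * (f d - f i)) =
        w d * (hat w p d * f d) - w d * hat w p d * f i -
        w i * (w d * ((hat w p i - hat w p d) / (w d - w i) * (f d - f i))) := by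
      intro d hd
      have hne : w d - w i ≠ 0 := sub_ne_zero.2 fun e => ne_of_mem_erase hd (hinj e)
      rw [K'_apply, E_split i (hat w p)]
      field_simp
      ring
    rw [sum_congr rfl e4, sum_sub_distrib, sum_sub_distrib, ← sum_mul, ← mul_sum]
    ring

/-- the star formula for `K' p` -/
theorem star_X (hinj : Function.Injective w) (p : ℝ[X]) (f : Fin q → ℝ) (i : Fin q) :
    aeval (K' w) (X * p) f i = ∑ d ∈ univ.erase i, w d * (hat w p d * f d +
      w i * ((hat w p d - hat w p i) / (w d - w i)) * (f d - f i)) := by
  have e2 : aeval (K' w) (X * p) f = K' w (aeval (K' w) p f) := by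
    rw [map_mul, aeval_X]; rfl
  have e3 : E w (aeval (K' w) p f) = E w (fun d => hat w p d * f d) := by
    have h1 := E_aeval_mul w p f (fun _ => 1)
    simp only [mul_one] at h1
    rw [show (fun i => aeval (K' w) p f i) = aeval (K' w) p f from rfl] at h1
    rw [h1]
    congr 1
    funext d
    rw [← hat_def]
    ring
  rw [e2, K'_apply, e3, E_split i (fun d => hat w p d * f d), star_formula hinj, mul_add, mul_sum]
  have e4 : ∀ d, w d * (hat w p d * f d + w i * ((hat w p d - hat w p i) / (w d - w i)) *
      (f d - f i)) = w d * (hat w p d * f d) -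
      w i * (w d * ((hat w p i - hat w p d) / (w d - w i) * (f d - f i))) := by
    intro d; ring
  simp only [e4, sum_sub_distrib]
  ring

end Pool.Agent.Helper76.FU
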